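import Mathlib
import Pool.Agent.Lib.P0c8ca5Q.DecC

/-!
# Module Orb: counting orbits

`cx N Y hn x` is the subgroup of the `y ∈ Y` with `y x y⁻¹ x⁻¹ ∈ N` (`N` is normalized by `Y`).

PROOF of `sum_orb`.  For `x ∈ X` let `cl x` be the set of the `z ∈ Y` with `y z y⁻¹ x⁻¹ ∈ N` for some `y ∈ Y`.  These sets are a
partition of `Y` (`hX.ex`, `hX.uniq`: if `z` is in `cl x` and `cl x'` by `y`, `y'`, then `y' y⁻¹ x (y' y⁻¹)⁻¹ x'⁻¹ ∈ N`).  The number of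
the pairs `(y, z) ∈ Y × Y` with `y z y⁻¹ x⁻¹ ∈ N` is `|Y| |N|` (`z = y⁻¹ n x y`, `x ∈ Y`, `N ≤ Y`); on the other hand, for
`z ∈ cl x` the set of the `y` with `y z y⁻¹ x⁻¹ ∈ N` is a coset `y₀ (cx z)`, so it has `|cx z|` elements:
`∑ z ∈ cl x, |cx z| = |Y| |N|`.  `φ` is constant on `cl x`.
-/

namespace Pool.Agent.Lib.P0c8ca5.Zz

open Pool.Agent.Lib.P0c8ca5.Bq

variable {p : ℕ} {A : Type*} [Group A]

/-- the elements of `Y` that commute with `x` modulo `N` -/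
def cx (N Y : Subgroup A) (hn : Y ≤ Subgroup.normalizer (N : Set A)) (x : A) : Subgroup A where
  carrier := {y | y ∈ Y ∧ y * x * y⁻¹ * x⁻¹ ∈ N}
  mul_mem' := by
    rintro a b ⟨ha, ha'⟩ ⟨hb, hb'⟩
    refine ⟨Y.mul_mem ha hb, ?_⟩
    have h1 := (Subgroup.mem_normalizer_iff.1 (hn ha) _).1 hb'
    have h2 := N.mul_mem h1 ha'
    have e : a * (b * x * b⁻¹ * x⁻¹) * a⁻¹ * (a * x * a⁻¹ * x⁻¹) = a * b * x * (a * b)⁻¹ * x⁻¹ := by
      group
    rwa [e] at h2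
  one_mem' := ⟨Y.one_mem, by simp⟩
  inv_mem' := by
    rintro a ⟨ha, ha'⟩
    refine ⟨Y.inv_mem ha, ?_⟩
    have h1 := (Subgroup.mem_normalizer_iff.1 (hn (Y.inv_mem ha)) _).1 (N.inv_mem ha')
    have e : a⁻¹ * (a * x * a⁻¹ * x⁻¹)⁻¹ * a⁻¹⁻¹ = a⁻¹ * x * a⁻¹⁻¹ * x⁻¹ := by group
    rwa [e] at h1

theorem mem_cx {N Y : Subgroup A} {hn : Y ≤ Subgroup.normalizer (N : Set A)} {x y : A} :
    y ∈ cx N Y hn x ↔ y ∈ Y ∧ y * x * y⁻¹ * x⁻¹ ∈ N := Iff.rfl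

open Classical in
/-- the pairs of elements of `Y` that commute modulo `N` -/
noncomputable def prs [Fintype A] (N Y : Subgroup A) : Finset (A × A) :=
  Finset.univ.filter (fun z => z.1 ∈ Y ∧ z.2 ∈ Y ∧ z.2 * z.1 * z.2⁻¹ * z.1⁻¹ ∈ N)

theorem mem_prs [Fintype A] {N Y : Subgroup A} {z : A × A} :
    z ∈ prs N Y ↔ z.1 ∈ Y ∧ z.2 ∈ Y ∧ z.2 * z.1 * z.2⁻¹ * z.1⁻¹ ∈ N := by
  classical
  rw [prs, Finset.mem_filter]
  simp

namespace OrbAux

theorem conj_mem {N Y : Subgroup A} (hn : Y ≤ Subgroup.normalizer (N : Set A)) {y m : A}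
    (hy : y ∈ Y) (hm : m ∈ N) : y * m * y⁻¹ ∈ N :=
  (Subgroup.mem_normalizer_iff.1 (hn hy) m).1 hm

theorem conj_mem' {N Y : Subgroup A} (hn : Y ≤ Subgroup.normalizer (N : Set A)) {y m : A}
    (hy : y ∈ Y) (hm : m ∈ N) : y⁻¹ * m * y ∈ N := by
  have h := conj_mem hn (Y.inv_mem hy) hm
  rwa [inv_inv] at h

open Classical in
/-- the number of the `y` that move `z` to the coset of `x` is the order of `cx z` -/
theorem card_mov [Fintype A] {N Y : Subgroup A}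
    (hn : Y ≤ Subgroup.normalizer (N : Set A)) {x z y₀ : A} (hy₀ : y₀ ∈ Y)
    (h0 : y₀ * z * y₀⁻¹ * x⁻¹ ∈ N) :
    ((Finset.univ.filter (fun y : A => y ∈ Y)).filter
      (fun y => y * z * y⁻¹ * x⁻¹ ∈ N)).card = Nat.card ↥(cx N Y hn z) := by
  rw [Nat.card_eq_fintype_card, ← Finset.card_univ]
  symm
  refine Finset.card_bij (fun c _ => y₀ * (c : A)) ?_ ?_ ?_
  · intro c _
    obtain ⟨hc1, hc2⟩ := mem_cx.1 c.2
    rw [Finset.mem_filter, Finset.mem_filter]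
    refine ⟨⟨Finset.mem_univ _, Y.mul_mem hy₀ hc1⟩, ?_⟩
    have h := N.mul_mem (conj_mem hn hy₀ hc2) h0
    have e : y₀ * ((c : A) * z * (c : A)⁻¹ * z⁻¹) * y₀⁻¹ * (y₀ * z * y₀⁻¹ * x⁻¹)
        = y₀ * (c : A) * z * (y₀ * (c : A))⁻¹ * x⁻¹ := by group
    rwa [e] at h
  · intro c _ c' _ h
    exact Subtype.ext (mul_left_cancel h)
  · intro y hy
    rw [Finset.mem_filter, Finset.mem_filter] at hy
    obtain ⟨⟨-, hy1⟩, hy2⟩ := hy
    refine ⟨⟨y₀⁻¹ * y, mem_cx.2 ⟨Y.mul_mem (Y.inv_mem hy₀) hy1, ?_⟩⟩, Finset.mem_univ _, ?_⟩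
    · have h := conj_mem' hn hy₀ (N.mul_mem hy2 (N.inv_mem h0))
      have e : y₀⁻¹ * (y * z * y⁻¹ * x⁻¹ * (y₀ * z * y₀⁻¹ * x⁻¹)⁻¹) * y₀
          = y₀⁻¹ * y * z * (y₀⁻¹ * y)⁻¹ * z⁻¹ := by group
      rwa [e] at h
    · show y₀ * (y₀⁻¹ * y) = y
      group

open Classical in
/-- the number of the `z` that `y` moves to the coset of `x` is the order of `N` -/
theorem card_src [Fintype A] {N Y : Subgroup A} (hNY : N ≤ Y) {x y : A} (hx : x ∈ Y)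
    (hy : y ∈ Y) :
    ((Finset.univ.filter (fun z : A => z ∈ Y)).filter
      (fun z => y * z * y⁻¹ * x⁻¹ ∈ N)).card = Nat.card N := by
  rw [Nat.card_eq_fintype_card, ← Finset.card_univ]
  symm
  refine Finset.card_bij (fun n _ => y⁻¹ * (n : A) * x * y) ?_ ?_ ?_
  · intro n _
    rw [Finset.mem_filter, Finset.mem_filter]
    refine ⟨⟨Finset.mem_univ _, ?_⟩, ?_⟩
    · exact Y.mul_mem (Y.mul_mem (Y.mul_mem (Y.inv_mem hy) (hNY n.2)) hx) hy
    · have e : y * (y⁻¹ * (n : A) * x * y) * y⁻¹ * x⁻¹ = (n : A) := by group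
      rw [e]; exact n.2
  · intro n _ n' _ h
    refine Subtype.ext ?_
    exact mul_left_cancel (mul_right_cancel (mul_right_cancel h))
  · intro z hz
    rw [Finset.mem_filter, Finset.mem_filter] at hz
    refine ⟨⟨y * z * y⁻¹ * x⁻¹, hz.2⟩, Finset.mem_univ _, ?_⟩
    show y⁻¹ * (y * z * y⁻¹ * x⁻¹) * x * y = z
    group

end OrbAux

open OrbAux

open Classical in
theorem sum_orb [Fintype A] {N Y : Subgroup A} (hNY : N ≤ Y)
    (hn : Y ≤ Subgroup.normalizer (N : Set A)) {X : Finset A} (hX : CReps p Y N X)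
    (hp : ∀ y ∈ Y, Prm p N y) {M : Type*} [AddCommMonoid M] (φ : A → M)
    (hφ : ∀ x ∈ Y, ∀ y ∈ Y, ∀ z ∈ Y, y * z * y⁻¹ * x⁻¹ ∈ N → φ z = φ x) :
    ∑ x ∈ Finset.univ.filter (fun x : A => x ∈ Y), Nat.card ↥(cx N Y hn x) • φ x
      = ∑ x ∈ X, (Nat.card N * Nat.card Y) • φ x := by
  have key : ∀ z ∈ Finset.univ.filter (fun x : A => x ∈ Y), Nat.card ↥(cx N Y hn z) • φ z
      = ∑ x ∈ X, ((Finset.univ.filter (fun y : A => y ∈ Y)).filter
          (fun y => y * z * y⁻¹ * x⁻¹ ∈ N)).card • φ x := by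
    intro z hz
    have hzY : z ∈ Y := (Finset.mem_filter.1 hz).2
    obtain ⟨x, hxX, y₀, hy₀, h0⟩ := hX.ex z hzY (hp z hzY)
    have hxY : x ∈ Y := (hX.sub x hxX).1
    rw [Finset.sum_eq_single x]
    · rw [card_mov hn hy₀ h0, hφ x hxY y₀ hy₀ z hzY h0]
    · intro x' hx' hne
      have he : ((Finset.univ.filter (fun y : A => y ∈ Y)).filter
          (fun y => y * z * y⁻¹ * x'⁻¹ ∈ N)) = ∅ := by
        rw [Finset.filter_eq_empty_iff]
        intro y hy hy2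
        have hyY : y ∈ Y := (Finset.mem_filter.1 hy).2
        apply hne
        refine hX.uniq x' hx' x hxX (y₀ * y⁻¹) (Y.mul_mem hy₀ (Y.inv_mem hyY)) ?_
        have h1 : y₀ * (y⁻¹ * (y * z * y⁻¹ * x'⁻¹)⁻¹ * y) * y₀⁻¹ ∈ N :=
          conj_mem hn hy₀ (conj_mem' hn hyY (N.inv_mem hy2))
        have h2 := N.mul_mem h1 h0
        have e : y₀ * (y⁻¹ * (y * z * y⁻¹ * x'⁻¹)⁻¹ * y) * y₀⁻¹ * (y₀ * z * y₀⁻¹ * x⁻¹)
            = y₀ * y⁻¹ * x' * (y₀ * y⁻¹)⁻¹ * x⁻¹ := by group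
        rwa [e] at h2
      rw [he, Finset.card_empty, zero_smul]
    · intro h
      exact absurd hxX h
  rw [Finset.sum_congr rfl key, Finset.sum_comm]
  refine Finset.sum_congr rfl fun x hx => ?_
  have hxY : x ∈ Y := (hX.sub x hx).1
  rw [← Finset.sum_smul]
  congr 1
  simp only [Finset.card_filter (fun _ => _) (Finset.univ.filter (fun y : A => y ∈ Y))]
  rw [Finset.sum_comm]
  have h1 : ∀ y ∈ Finset.univ.filter (fun x : A => x ∈ Y),
      ∑ z ∈ Finset.univ.filter (fun x : A => x ∈ Y), (if y * z * y⁻¹ * x⁻¹ ∈ N then 1 else 0)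
        = Nat.card N := by
    intro y hy
    rw [← card_src hNY hxY (Finset.mem_filter.1 hy).2, Finset.card_filter]
  rw [Finset.sum_congr rfl h1, Finset.sum_const, smul_eq_mul, mul_comm]
  congr 1
  rw [Nat.card_eq_fintype_card, Fintype.card_subtype]

open Classical in
theorem sum_prs [Fintype A] {N Y : Subgroup A} (hn : Y ≤ Subgroup.normalizer (N : Set A))
    {M : Type*} [AddCommMonoid M] (τ : A → A → M) :
    ∑ z ∈ prs N Y, τ z.1 z.2
      = ∑ x ∈ Finset.univ.filter (fun x : A => x ∈ Y), ∑ y : ↥(cx N Y hn x), τ x (y : A) := by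
  have key : ∀ x ∈ Finset.univ.filter (fun x : A => x ∈ Y), ∑ y : ↥(cx N Y hn x), τ x (y : A)
      = ∑ y : A, if y ∈ cx N Y hn x then τ x y else 0 := by
    intro x _
    rw [← Finset.sum_filter]
    exact (Finset.sum_subtype _ (by intro y; simp) (fun y => τ x y)).symm
  rw [Finset.sum_congr rfl key, Finset.sum_filter, prs, Finset.sum_filter,
    Fintype.sum_prod_type]
  refine Finset.sum_congr rfl fun x _ => ?_
  by_cases hx : x ∈ Y
  · rw [if_pos hx]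
    refine Finset.sum_congr rfl fun y _ => ?_
    by_cases hy : y ∈ cx N Y hn x
    · rw [if_pos hy, if_pos ⟨hx, hy⟩]
    · rw [if_neg hy, if_neg fun h => hy h.2]
  · rw [if_neg hx]
    refine Finset.sum_eq_zero fun y _ => ?_
    rw [if_neg fun h => hx h.1]

end Pool.Agent.Lib.P0c8ca5.Zz
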