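import Mathlib
import Pool.Agent.Lib.P0c8ca5Z.Orb

/-!
# Module CombP: sums over the commuting pairs

PROOF of `comb`.  For a subgroup `Y` with `N ≤ Y ≤ K` let `g Y` be the sum of `δ z.1 z.2` over the `z ∈ prs N Y` with
`N ⊔ Subgroup.closure {z.1, z.2} = Y`.  As `N ⊔ closure {z.1, z.2} ≤ Y` for `z ∈ prs N Y`, the sum over `prs N Y` is the sum of `g Y'` over
`N ≤ Y' ≤ Y` (`Finset.sum_fiberwise`-like; `z ∈ prs N Y` and `N ⊔ closure = Y'` iff `z ∈ prs N Y'` and `N ⊔ closure = Y'` for `Y' ≤ Y`).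
By strong induction on `Nat.card Y`, `g Y = 0` for `N ≤ Y < K`.  So the sum over `prs N K` is `g K`.  And `g K = 0` as no
pair `z ∈ prs N K` has `N ⊔ closure {z.1, z.2} = K`: otherwise `z.1`, `z.2` commute modulo the normal subgroup `N` of `K`, so all elements
of `K` commute modulo `N`, against `hna` (the elements `x` of `K` with `z.i * x * z.i⁻¹ * x⁻¹ ∈ N` are a subgroup, ... or work in
`↥K ⧸ N.subgroupOf K`).
-/

namespace Pool.Agent.Lib.P0c8ca5.Zz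

variable {A : Type*} [Group A]

namespace CombAux

/-- the subgroup generated by `N` and the two entries of a pair -/
def cl (N : Subgroup A) (z : A × A) : Subgroup A := N ⊔ Subgroup.closure {z.1, z.2}

theorem cl_le {N Y : Subgroup A} (h : N ≤ Y) {z : A × A} (h1 : z.1 ∈ Y) (h2 : z.2 ∈ Y) :
    cl N z ≤ Y := by
  refine sup_le h ((Subgroup.closure_le _).2 ?_)
  rintro x (rfl | hx)
  · exact h1
  · rw [Set.mem_singleton_iff] at hx
    subst hx
    exact h2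

theorem fst_mem (N : Subgroup A) (z : A × A) : z.1 ∈ cl N z :=
  (le_sup_right : Subgroup.closure {z.1, z.2} ≤ cl N z) (Subgroup.subset_closure (Or.inl rfl))

theorem snd_mem (N : Subgroup A) (z : A × A) : z.2 ∈ cl N z :=
  (le_sup_right : Subgroup.closure {z.1, z.2} ≤ cl N z) (Subgroup.subset_closure (Or.inr rfl))

theorem inv_comm {N : Subgroup A} {x y : A} (h : y * x * y⁻¹ * x⁻¹ ∈ N) :
    x * y * x⁻¹ * y⁻¹ ∈ N := by
  have e : x * y * x⁻¹ * y⁻¹ = (y * x * y⁻¹ * x⁻¹)⁻¹ := by group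
  rw [e]
  exact N.inv_mem h

theorem le_cx {N K : Subgroup A} (hNK : N ≤ K) (hn : K ≤ Subgroup.normalizer (N : Set A)) {x : A}
    (hx : x ∈ K) : N ≤ cx N K hn x := by
  intro n hN
  refine mem_cx.2 ⟨hNK hN, ?_⟩
  have h1 := OrbAux.conj_mem hn hx (N.inv_mem hN)
  have h2 := N.mul_mem hN h1
  have e : n * (x * n⁻¹ * x⁻¹) = n * x * n⁻¹ * x⁻¹ := by group
  rwa [e] at h2

theorem all_comm {N K : Subgroup A} (hNK : N ≤ K) (hn : K ≤ Subgroup.normalizer (N : Set A))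
    {z : A × A} (h1 : z.1 ∈ K) (h2 : z.2 ∈ K) (h3 : z.2 * z.1 * z.2⁻¹ * z.1⁻¹ ∈ N)
    (hz : cl N z = K) : ∀ x ∈ K, ∀ y ∈ K, y * x * y⁻¹ * x⁻¹ ∈ N := by
  have c1 : K ≤ cx N K hn z.1 := by
    have h : cl N z ≤ cx N K hn z.1 := cl_le (le_cx hNK hn h1)
      (mem_cx.2 ⟨h1, by
        have e : z.1 * z.1 * z.1⁻¹ * z.1⁻¹ = 1 := by group
        rw [e]; exact N.one_mem⟩) (mem_cx.2 ⟨h2, h3⟩)
    rwa [hz] at h
  have c2 : K ≤ cx N K hn z.2 := by
    have h : cl N z ≤ cx N K hn z.2 := cl_le (le_cx hNK hn h2)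
      (mem_cx.2 ⟨h1, inv_comm h3⟩)
      (mem_cx.2 ⟨h2, by
        have e : z.2 * z.2 * z.2⁻¹ * z.2⁻¹ = 1 := by group
        rw [e]; exact N.one_mem⟩)
    rwa [hz] at h
  intro x hx y hy
  have h : cl N z ≤ cx N K hn x := cl_le (le_cx hNK hn hx)
    (mem_cx.2 ⟨h1, inv_comm (mem_cx.1 (c1 hx)).2⟩)
    (mem_cx.2 ⟨h2, inv_comm (mem_cx.1 (c2 hx)).2⟩)
  rw [hz] at h
  exact (mem_cx.1 (h hy)).2

open Classical in
theorem sum_eq [Fintype A] {M : Type*} [AddCommGroup M] [Fintype (Subgroup A)] {N Y : Subgroup A}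
    (δ : A → A → M) (hNY : N ≤ Y) :
    ∑ z ∈ prs N Y, δ z.1 z.2
      = ∑ Y' ∈ Finset.univ.filter (fun Y' : Subgroup A => N ≤ Y' ∧ Y' ≤ Y),
          ∑ z ∈ (prs N Y').filter (fun z => cl N z = Y'), δ z.1 z.2 := by
  rw [← Finset.sum_fiberwise_of_maps_to (s := prs N Y)
    (t := Finset.univ.filter (fun Y' : Subgroup A => N ≤ Y' ∧ Y' ≤ Y)) (g := cl N)
    (f := fun z => δ z.1 z.2)]
  · refine Finset.sum_congr rfl fun Y' hY' => ?_
    rw [Finset.mem_filter] at hY'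
    refine Finset.sum_congr ?_ fun _ _ => rfl
    ext z
    rw [Finset.mem_filter, Finset.mem_filter, mem_prs, mem_prs]
    constructor
    · rintro ⟨⟨_, _, h3⟩, h4⟩
      exact ⟨⟨h4 ▸ fst_mem N z, h4 ▸ snd_mem N z, h3⟩, h4⟩
    · rintro ⟨⟨h1, h2, h3⟩, h4⟩
      exact ⟨⟨hY'.2.2 h1, hY'.2.2 h2, h3⟩, h4⟩
  · intro z hz
    rw [mem_prs] at hz
    rw [Finset.mem_filter]
    exact ⟨Finset.mem_univ _, le_sup_left, cl_le hNY hz.1 hz.2.1⟩

end CombAux

open CombAux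

theorem comb [Fintype A] {M : Type*} [AddCommGroup M] {N K : Subgroup A} (δ : A → A → M)
    (hNK : N ≤ K) (hn : K ≤ Subgroup.normalizer (N : Set A))
    (hna : ¬ ∀ x ∈ K, ∀ y ∈ K, y * x * y⁻¹ * x⁻¹ ∈ N)
    (h : ∀ Y : Subgroup A, N ≤ Y → Y < K → ∑ z ∈ prs N Y, δ z.1 z.2 = 0) :
    ∑ z ∈ prs N K, δ z.1 z.2 = 0 := by
  classical
  haveI : Fintype (Subgroup A) := Fintype.ofFinite _
  have key : ∀ Y : Subgroup A, N ≤ Y → Y < K →
      ∑ z ∈ (prs N Y).filter (fun z => cl N z = Y), δ z.1 z.2 = 0 := by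
    intro Y
    induction Y using WellFoundedLT.induction with
    | ind Y ih =>
      intro hNY hYK
      have e := sum_eq δ hNY
      rw [h Y hNY hYK, Finset.sum_eq_single Y] at e
      · exact e.symm
      · intro Y' hY' hne
        rw [Finset.mem_filter] at hY'
        exact ih Y' (lt_of_le_of_ne hY'.2.2 hne) hY'.2.1 (lt_of_le_of_lt hY'.2.2 hYK)
      · intro h'
        exact absurd (Finset.mem_filter.2 ⟨Finset.mem_univ _, hNY, le_refl _⟩) h'
  rw [sum_eq δ hNK]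
  refine Finset.sum_eq_zero fun Y' hY' => ?_
  rw [Finset.mem_filter] at hY'
  rcases eq_or_lt_of_le hY'.2.2 with he | hlt
  · subst he
    have he : (prs N Y').filter (fun z => cl N z = Y') = ∅ := by
      rw [Finset.filter_eq_empty_iff]
      intro z hz hc
      rw [mem_prs] at hz
      exact hna (all_comm hNK hn hz.1 hz.2.1 hz.2.2 hc)
    rw [he, Finset.sum_empty]
  · exact key Y' hY'.2.1 hlt

end Pool.Agent.Lib.P0c8ca5.Zz
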