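import Mathlib
import Pool.Agent.Lib.P0c8ca5C.DzA
import Pool.Agent.Lib.P0c8ca5C.DzDown
import Pool.Agent.Lib.P0c8ca5C.DzMid
import Pool.Agent.Lib.P0c8ca5R.CardDZ
import Pool.Agent.Lib.P0c8ca5N.WSum
import Pool.Agent.Lib.P0c8ca5Q.Defs

/-!
# Module DzN: blocks of defect zero over a normal subgroup of index prime to `p`

`N` is a normal subgroup of `H` of index prime to `p` (`∀ y ∈ H, Prm p N y`: `y ^ m ∈ N` for some `m` prime to `p`), `c` an
`H`-invariant idempotent of `kN`; `dzF p N c` is the sum of the blocks of defect zero `g` of `N` with `g * c = g`.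

PROOF of `dzF_eq`.  The set is finite (`finite_isBlock` in P0c8ca5.Blocks).
PROOF of `dzF_supp`, `dzF_idem`.  `IsBlock.mem`/`suppIn`, orthogonality of blocks (`IsBlock.eq_or_mul_eq_zero`), `g * g = g`.
PROOF of `dzF_inv`.  `cj h` (`h ∈ H`) permutes the set: `cj h g` is a block of defect zero of `N` (the lemma `orb_isDZ` used in
P0c8ca5C.DzA, or the lemmas on `cj` and `IsDZ`/`IsBlock` it is based on) and `cj h g * c = cj h (g * c) = cj h g` as `cj h c = c`
(`invBy_iff_cj`).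
PROOF of `dz_up_p`.  As `dz_up` in P0c8ca5C.DzA: let `P ≤ H` be a p-subgroup with `HasBr P γ`; `P ≤ N` because for `x ∈ P` both
`x ^ p ^ n = 1` and `x ^ m ∈ N` with `m` prime to `p`; the rest is the same (copy it).
PROOF of `card_dz_N`.  Let `F = dzF p N c`, `S` as in `dzF_eq`.  The blocks `γ` of `H` with `γ * F ≠ 0` are the `γ` with
`IsDZ p H γ ∧ γ * c = γ`:  if `γ * F ≠ 0` then `γ * g ≠ 0` for some `g ∈ S`, so `IsDZ p H γ` (`dz_up_p`) and `γ * c = γ`
(`mul_c_of_ne` in P0c8ca5C.DzMid).  If `IsDZ p H γ`, `γ * c = γ`: `c` is the sum of the blocks `g` of `N` with `g * c ≠ 0`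
(`sum_blocks` in P0c8ca5N.WSum), so `γ * g ≠ 0` for one of them, `IsDZ p N g` (`dz_down` in P0c8ca5C.DzDown), `g * c = g`
(`IsBlock.mul_eq`), `g ∈ S`, `F * g = g`, and `γ * F * g = γ * g ≠ 0`.  Now `card_irX_blocks` (P0c8ca5N.WSum) for `F` and
`card_irr_dz` (P0c8ca5R.CardDZ): the number is the number of these `γ`.
-/

namespace Pool.Agent.Lib.P0c8ca5.Zz

open MonoidAlgebra Pool.Agent.Lib.P0c8ca5.Bq Pool.Agent.Lib.P0c8ca5.Cy

variable {p : ℕ} {k : Type*} [Field k] {A : Type*} [Group A]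

open Classical in
/-- the sum of the blocks of defect zero of `N` in `c` -/
noncomputable def dzF (p : ℕ) (N : Subgroup A) (c : MonoidAlgebra k A) : MonoidAlgebra k A :=
  if h : {g : MonoidAlgebra k A | IsDZ p N g ∧ g * c = g}.Finite then ∑ g ∈ h.toFinset, g else 0

theorem dzF_eq [Finite A] (p : ℕ) (N : Subgroup A) (c : MonoidAlgebra k A) :
    ∃ S : Finset (MonoidAlgebra k A), (∀ g, g ∈ S ↔ IsDZ p N g ∧ g * c = g) ∧
      dzF p N c = ∑ g ∈ S, g := by
  classical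
  have h : {g : MonoidAlgebra k A | IsDZ p N g ∧ g * c = g}.Finite :=
    (finite_isBlock N).subset fun g hg => hg.1.blk
  refine ⟨h.toFinset, fun g => h.mem_toFinset, ?_⟩
  rw [dzF, dif_pos h]

theorem dzF_supp [Finite A] (p : ℕ) (N : Subgroup A) (c : MonoidAlgebra k A) :
    SuppIn N (dzF p N c) := by
  obtain ⟨S, hS, hF⟩ := dzF_eq p N c
  rw [hF]
  intro x hx
  rw [coeff_sum, Finsupp.finsetSum_apply] at hx
  obtain ⟨g, hg, hgx⟩ := Finset.exists_ne_zero_of_sum_ne_zero hx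
  exact ((hS g).1 hg).1.blk.suppIn x hgx

namespace DzNAux

theorem mul_self_of_mem [Finite A] {N : Subgroup A} {c : MonoidAlgebra k A}
    {S : Finset (MonoidAlgebra k A)} (hS : ∀ g, g ∈ S ↔ IsDZ p N g ∧ g * c = g)
    {g : MonoidAlgebra k A} (hg : g ∈ S) : (∑ z ∈ S, z) * g = g := by
  classical
  rw [Finset.sum_mul, Finset.sum_eq_single g]
  · exact ((hS g).1 hg).1.blk.idem
  · intro w hw hwz
    rcases ((hS w).1 hw).1.blk.eq_or_mul_eq_zero ((hS g).1 hg).1.blk with h | h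
    · exact absurd h hwz
    · exact h
  · intro h; exact absurd hg h

theorem le_of_prm [Fact p.Prime] {N H P : Subgroup A} (hp : ∀ y ∈ H, Prm p N y) (hPH : P ≤ H)
    (hP : IsPGroup p P) : P ≤ N := by
  intro x hx
  obtain ⟨n, hn⟩ := hP ⟨x, hx⟩
  have hn' : x ^ p ^ n = 1 := congrArg Subtype.val hn
  obtain ⟨m, hm, hmN⟩ := hp x (hPH hx)
  have hcop : Nat.Coprime m (p ^ n) :=
    Nat.Coprime.pow_right n (Nat.Coprime.symm (((Fact.out : p.Prime).coprime_iff_not_dvd).2 hm))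
  have hcop' : Nat.Coprime m (orderOf x) :=
    Nat.Coprime.coprime_dvd_right (orderOf_dvd_of_pow_eq_one hn') hcop
  obtain ⟨t, ht⟩ := exists_pow_eq_self_of_coprime hcop'
  rw [← ht]
  exact N.pow_mem hmN t

end DzNAux

theorem dzF_idem [Finite A] (p : ℕ) (N : Subgroup A) (c : MonoidAlgebra k A) :
    dzF p N c * dzF p N c = dzF p N c := by
  obtain ⟨S, hS, hF⟩ := dzF_eq p N c
  rw [hF]
  conv_lhs => rw [Finset.mul_sum]
  exact Finset.sum_congr rfl fun g hg => DzNAux.mul_self_of_mem hS hg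

theorem dzF_inv [Finite A] {N H : Subgroup A} (hn : H ≤ Subgroup.normalizer (N : Set A))
    {c : MonoidAlgebra k A} (hc : InvBy H c) : InvBy H (dzF p N c) := by
  classical
  have : Fintype A := Fintype.ofFinite A
  obtain ⟨S, hS, hF⟩ := dzF_eq p N c
  rw [hF, invBy_iff_cj]
  intro h hh
  rw [cj_sum]
  have hmem : ∀ h ∈ H, ∀ g ∈ S, cj h g ∈ S := by
    intro h hh g hg
    obtain ⟨h1, h2⟩ := (hS g).1 hg
    refine (hS _).2 ⟨orb_isDZ hn h1 _ (mem_orb.2 ⟨h, hh, rfl⟩), ?_⟩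
    conv_lhs => rw [← invBy_iff_cj.1 hc h hh]
    rw [← cj_mul, h2]
  refine Finset.sum_bij' (fun g _ => cj h g) (fun g _ => cj h⁻¹ g) (hmem h hh)
    (hmem h⁻¹ (H.inv_mem hh)) ?_ ?_ ?_
  · intro g _
    exact cj_inv_cj h g
  · intro g _
    exact cj_cj_inv h g
  · intro g _
    rfl

theorem dz_up_p [Fact p.Prime] [CharP k p] [IsAlgClosed k] [Fintype A] {N H : Subgroup A}
    (hNH : N ≤ H) (hn : H ≤ Subgroup.normalizer (N : Set A)) (hp : ∀ y ∈ H, Prm p N y)
    {γ g : MonoidAlgebra k A} (hγ : IsBlock H γ) (hg : IsDZ p N g)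
    (hne : γ * g ≠ 0) : IsDZ p H γ := by
  classical
  refine ⟨hγ, fun P hPH hP hbr => ?_⟩
  have hPN : P ≤ N := DzNAux.le_of_prm hp hPH hP
  have h1 : InvBy P γ := hγ.invBy.mono hPH
  have h2 : InvBy P (orbSum H g) := (orbSum_invBy H g).mono hPH
  have h3 : HasBr P (orbSum H g) :=
    hasBr_of_mul hP h1 h2 (mul_orbSum hNH hn hγ hg.blk hne) hbr
  obtain ⟨x, hx, hfx⟩ := h3
  have h4 : ∃ z ∈ orb H g, z.coeff x ≠ 0 := by
    by_contra hcon
    push Not at hcon
    apply hfx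
    rw [orbSum, coeff_sum, Finsupp.finsetSum_apply]
    exact Finset.sum_eq_zero hcon
  obtain ⟨z, hz, hzx⟩ := h4
  exact (orb_isDZ hn hg z hz).dz P hPN hP ⟨x, hx, hzx⟩

theorem card_dz_N [Fact p.Prime] [CharP k p] [IsAlgClosed k] [Fintype A] {N H : Subgroup A}
    (hNH : N ≤ H) (hn : H ≤ Subgroup.normalizer (N : Set A)) (hp : ∀ y ∈ H, Prm p N y)
    {c : MonoidAlgebra k A} (hcs : SuppIn N c) (hci : InvBy H c) (hcc : c * c = c) :
    Nat.card ↥{γ : MonoidAlgebra k A | IsDZ p H γ ∧ γ * c = γ} = Nat.card (IrX H (dzF p N c)) := by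
  classical
  obtain ⟨S, hS, hF⟩ := dzF_eq p N c
  have hFs : SuppIn H (dzF p N c) := (dzF_supp p N c).mono hNH
  have hFi : InvBy H (dzF p N c) := dzF_inv hn hci
  have hfin : {b : MonoidAlgebra k A | IsBlock H b ∧ b * dzF p N c ≠ 0}.Finite :=
    (finite_isBlock H).subset fun b hb => hb.1
  have hBl : ∀ b, b ∈ hfin.toFinset ↔ IsBlock H b ∧ b * dzF p N c ≠ 0 := fun b =>
    hfin.mem_toFinset
  have key : ∀ γ, γ ∈ hfin.toFinset ↔ IsDZ p H γ ∧ γ * c = γ := by
    intro γ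
    rw [hBl, hF]
    constructor
    · rintro ⟨h1, h2⟩
      rw [Finset.mul_sum] at h2
      obtain ⟨g, hg, hgne⟩ := Finset.exists_ne_zero_of_sum_ne_zero h2
      obtain ⟨h3, h4⟩ := (hS g).1 hg
      exact ⟨dz_up_p hNH hn hp h1 h3 hgne,
        DzMidAux.mul_c_of_ne hNH hcs hci hcc h1 h4 h3.blk hgne⟩
    · rintro ⟨h1, h2⟩
      refine ⟨h1.blk, ?_⟩
      have cinN : c ∈ fixAlg k N N := mem_fixAlg.2 ⟨hcs, hci.mono hNH⟩
      have hfinN : {b : MonoidAlgebra k A | IsBlock N b ∧ b * c ≠ 0}.Finite :=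
        (finite_isBlock N).subset fun b hb => hb.1
      have h3 := WSumAux.sum_blocks (p := p) cinN hcc hfinN.toFinset
        (fun b => hfinN.mem_toFinset)
      have h4 : ∑ g ∈ hfinN.toFinset, γ * g ≠ 0 := by
        rw [← Finset.mul_sum, h3, h2]
        exact h1.blk.ne_zero
      obtain ⟨g, hg, hgne⟩ := Finset.exists_ne_zero_of_sum_ne_zero h4
      obtain ⟨hgb, hgc⟩ := hfinN.mem_toFinset.1 hg
      have hcom : g * c = c * g := commute_of hgb.suppIn (hci.mono hNH)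
      have hgc' : g * c = g := by
        rcases hgb.mul_eq cinN hcc with h | h
        · exact absurd (by rw [hcom, h]) hgc
        · rw [hcom, h]
      have hgS : g ∈ S := (hS g).2 ⟨dz_down hNH hn h1 hgb hgne, hgc'⟩
      intro h0
      apply hgne
      rw [← DzNAux.mul_self_of_mem hS hgS, ← mul_assoc, h0, zero_mul]
  rw [show Nat.card (IrX H (dzF p N c)) = _ from
    card_irX_blocks (p := p) hFs hFi (dzF_idem p N c) hfin.toFinset hBl]
  rw [Finset.sum_congr rfl fun b hb => Rk.card_irr_dz ((key b).1 hb).1, Finset.sum_const,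
    smul_eq_mul, mul_one, Nat.card_coe_set_eq,
    show {γ : MonoidAlgebra k A | IsDZ p H γ ∧ γ * c = γ} =
      ((hfin.toFinset : Finset (MonoidAlgebra k A)) : Set (MonoidAlgebra k A)) from
      Set.ext fun γ => (key γ).symm, Set.ncard_coe_finset]

end Pool.Agent.Lib.P0c8ca5.Zz
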