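import Mathlib

/-!
# Module Lift: lifting homomorphisms from a group of invertible order

PROOF of `lift_sq`.  `E`, `E'` rings, `π : E → E'` surjective, the product of any two elements of the kernel is zero, `r ∈ E` central
with `r * |C| = 1`.  Choose `σ : C → E` with `π (σ g) = ρ g`.  Let `c g h = σ g * σ h - σ (g h)`, in the kernel `J`, `J * J = 0`.
Associativity gives (*) `σ g * c h l - c (g h) l + c g (h l) - c g h * σ l = 0`.  Let `b g = r * ∑ l, c g l * σ l⁻¹ ∈ J`.  Multiply (*) on
the right by `σ l⁻¹` and sum over `l`.  As `J * J = 0`: `c g h * σ l * σ l⁻¹ = c g h` (since `σ l * σ l⁻¹ - 1 ∈ J`), and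
`∑ l, c g (h l) * σ l⁻¹ = ∑ l', c g l' * σ (l'⁻¹ h) = (∑ l', c g l' * σ l'⁻¹) * σ h` (since `σ (l'⁻¹ h) - σ l'⁻¹ * σ h ∈ J`).  So
`σ g * b h - b (g h) + b g * σ h = c g h`.  Then `σ' g = σ g - b g` satisfies `σ' g * σ' h = σ' (g h)` (again `b g * b h = 0`), and
`π (σ' g) = ρ g`.  `σ' 1` is idempotent and `σ' 1 - 1 =: j ∈ J`: `(1 + j)² = 1 + 2 j = 1 + j`, so `j = 0`.
PROOF of `exists_lift`.  `R` commutative, `I` an ideal, `I ^ m = 0`: by induction on `m ≥ 1` (over all surjective `π : R → S` with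
`ker π = I`).  Let `m ≥ 2`: let `J = I ^ (m - 1)`, `J * J = 0`, `S₁ = R ⧸ J`.  The map `R ⧸ J → S` has the kernel `I / J` with
`(I/J) ^ (m-1) = 0`, so `ρ` lifts to `Matrix n n (R ⧸ J)` by induction; then lift along `Matrix n n R → Matrix n n (R ⧸ J)` by
`lift_sq` (the entries of the matrices in the kernel are in `J`, so their products vanish).  For `m = 1` (or `I = 0`), `π` is bijective;
take the inverse images.
-/

namespace Pool.Agent.Lib.P0c8ca5.Zz

theorem lift_sq {E E' : Type*} [Ring E] [Ring E'] (π : E →+* E') (hs : Function.Surjective π)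
    (hJ : ∀ x y, π x = 0 → π y = 0 → x * y = 0) {C : Type*} [Group C] [Fintype C]
    (hC : IsUnit ((Fintype.card C : ℕ) : E)) (ρ : C →* E') :
    ∃ ρ' : C →* E, ∀ g, π (ρ' g) = ρ g := by
  classical
  obtain ⟨u, hu⟩ := hC
  obtain ⟨r, hr⟩ : ∃ r : E, r = ((u⁻¹ : Eˣ) : E) := ⟨_, rfl⟩
  have hrc : ∀ x : E, r * x = x * r := by
    intro x
    rw [hr]
    have h1 : Commute (u : E) x := by
      rw [hu]
      exact Nat.cast_commute _ x
    exact h1.units_inv_left
  have hr1 : r * ((Fintype.card C : ℕ) : E) = 1 := by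
    rw [hr, ← hu]
    exact u.inv_mul
  choose σ hσ using fun g => hs (ρ g)
  obtain ⟨c, hc⟩ : ∃ c : C → C → E, ∀ g h, c g h = σ g * σ h - σ (g * h) := ⟨_, fun _ _ => rfl⟩
  have hc0 : ∀ g h, π (c g h) = 0 := by
    intro g h
    rw [hc, map_sub, map_mul, hσ, hσ, hσ, map_mul, sub_self]
  obtain ⟨T, hT⟩ : ∃ T : C → E, ∀ g, T g = ∑ l, c g l * σ l⁻¹ := ⟨_, fun _ => rfl⟩
  have hT0 : ∀ g, π (T g) = 0 := by
    intro g
    rw [hT, map_sum]
    refine Finset.sum_eq_zero fun l _ => ?_
    rw [map_mul, hc0, zero_mul]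
  -- products with approximate equalities
  have hcong : ∀ x y z, π x = 0 → π y = π z → x * y = x * z := by
    intro x y z hx hyz
    have h1 := hJ x (y - z) hx (by rw [map_sub, hyz, sub_self])
    rw [mul_sub] at h1
    exact sub_eq_zero.1 h1
  have hkey : ∀ g h, σ g * T h - T (g * h) + T g * σ h = ((Fintype.card C : ℕ) : E) * c g h := by
    intro g h
    have h1 : ∀ l, σ g * (c h l * σ l⁻¹) - c (g * h) l * σ l⁻¹ + c g (h * l) * σ l⁻¹ = c g h := by
      intro l
      have h2 : c g h * (σ l * σ l⁻¹) = c g h * 1 := by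
        apply hcong _ _ _ (hc0 g h)
        rw [map_mul, hσ, hσ, ← map_mul, mul_inv_cancel, map_one, map_one]
      rw [mul_one] at h2
      rw [← h2]
      have h3 : σ g * c h l - c (g * h) l + c g (h * l) = c g h * σ l := by
        rw [hc, hc, hc, hc, mul_assoc]
        noncomm_ring
      rw [← mul_assoc, ← mul_assoc, ← h3]
      noncomm_ring
    have h4 : ∑ l, c g (h * l) * σ l⁻¹ = T g * σ h := by
      rw [hT, Finset.sum_mul]
      refine Fintype.sum_equiv (Equiv.mulLeft h) _ _ (fun l => ?_)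
      rw [Equiv.coe_mulLeft, mul_assoc]
      apply hcong _ _ _ (hc0 _ _)
      rw [map_mul, hσ, hσ, hσ, ← map_mul]
      congr 1
      group
    have h5 : ∑ l : C, (σ g * (c h l * σ l⁻¹) - c (g * h) l * σ l⁻¹ + c g (h * l) * σ l⁻¹) =
        ((Fintype.card C : ℕ) : E) * c g h := by
      rw [Finset.sum_congr rfl (fun l _ => h1 l), Finset.sum_const, Finset.card_univ,
        nsmul_eq_mul]
    rw [Finset.sum_add_distrib, Finset.sum_sub_distrib, ← Finset.mul_sum, ← hT, ← hT, h4] at h5
    exact h5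
  obtain ⟨b, hb⟩ : ∃ b : C → E, ∀ g, b g = r * T g := ⟨_, fun _ => rfl⟩
  have hb0 : ∀ g, π (b g) = 0 := by
    intro g
    rw [hb, map_mul, hT0, mul_zero]
  have hbk : ∀ g h, σ g * b h - b (g * h) + b g * σ h = c g h := by
    intro g h
    have h1 : r * (σ g * T h - T (g * h) + T g * σ h) =
        r * (((Fintype.card C : ℕ) : E) * c g h) := congrArg (fun x => r * x) (hkey g h)
    rw [← mul_assoc r _ (c g h), hr1, one_mul] at h1
    rw [hb, hb, hb, ← h1, mul_add, mul_sub, ← mul_assoc, ← hrc, mul_assoc, mul_assoc]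
  obtain ⟨τ, hτ⟩ : ∃ τ : C → E, ∀ g, τ g = σ g - b g := ⟨_, fun _ => rfl⟩
  have hτm : ∀ g h, τ (g * h) = τ g * τ h := by
    intro g h
    have h1 := hbk g h
    have h2 := hJ (b g) (b h) (hb0 g) (hb0 h)
    rw [hc] at h1
    rw [hτ, hτ, hτ, sub_mul, mul_sub, mul_sub, h2]
    have h3 : σ (g * h) = σ g * σ h - (σ g * b h - b (g * h) + b g * σ h) := by
      rw [h1]
      abel
    rw [h3]
    abel
  have hτπ : ∀ g, π (τ g) = ρ g := by
    intro g
    rw [hτ, map_sub, hb0, sub_zero, hσ]
  have hτ1 : τ 1 = 1 := by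
    have h1 := hτm 1 1
    rw [mul_one] at h1
    have h2 : (τ 1 - 1) * (τ 1 - 1) = 0 := by
      apply hJ <;> rw [map_sub, hτπ, map_one, map_one, sub_self]
    have h3 : (τ 1 - 1) * (τ 1 - 1) = τ 1 * τ 1 - τ 1 - τ 1 + 1 := by noncomm_ring
    rw [h3, ← h1, sub_self, zero_sub] at h2
    exact (neg_add_eq_zero.1 h2)
  refine ⟨⟨⟨τ, hτ1⟩, hτm⟩, hτπ⟩

theorem exists_lift {R S : Type*} [CommRing R] [CommRing S] (π : R →+* S)
    (hs : Function.Surjective π) {m : ℕ} (hm : RingHom.ker π ^ m = ⊥)
    {n : Type*} [Fintype n] [DecidableEq n] {C : Type*} [Group C] [Fintype C]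
    (hC : IsUnit ((Fintype.card C : ℕ) : R)) (ρ : C →* Matrix n n S) :
    ∃ ρ' : C →* Matrix n n R, ∀ g, π.mapMatrix (ρ' g) = ρ g := by
  induction m generalizing R with
  | zero =>
    rw [pow_zero, Ideal.one_eq_top] at hm
    have h1 : (1 : R) ∈ (⊥ : Ideal R) := by
      rw [← hm]
      exact Submodule.mem_top
    rw [Ideal.mem_bot] at h1
    have h2 : (1 : S) = 0 := by
      rw [← map_one π, h1, map_zero]
    have : Subsingleton S := subsingleton_of_zero_eq_one h2.symm
    exact ⟨1, fun g => Subsingleton.elim _ _⟩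
  | succ m ih =>
    rcases Nat.eq_zero_or_pos m with hm0 | hm0
    · subst hm0
      rw [zero_add, pow_one] at hm
      have hinj : Function.Injective π := (RingHom.injective_iff_ker_eq_bot π).2 hm
      refine lift_sq (E := Matrix n n R) π.mapMatrix ?_ ?_ ?_ ρ
      · intro y
        choose f hf using hs
        refine ⟨y.map f, ?_⟩
        ext i j
        simp [hf]
      · intro x y hx _
        have h3 : x = 0 := by
          ext i j
          have h4 := congrFun (congrFun hx i) j
          rw [RingHom.mapMatrix_apply, Matrix.map_apply, Matrix.zero_apply] at h4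
          rw [Matrix.zero_apply]
          exact hinj (by rw [h4, map_zero])
        rw [h3, zero_mul]
      · have h5 := hC.map (Matrix.scalar n : R →+* Matrix n n R)
        rwa [map_natCast] at h5
    · obtain ⟨J, hJd⟩ : ∃ J : Ideal R, J = RingHom.ker π ^ m := ⟨_, rfl⟩
      have hJI : J ≤ RingHom.ker π := by
        rw [hJd]
        exact Ideal.pow_le_self (by omega)
      have hJJ : ∀ a b, a ∈ J → b ∈ J → a * b = 0 := by
        intro a b ha hb
        have h6 : a * b ∈ J * J := Ideal.mul_mem_mul ha hb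
        have h7 : J * J ≤ ⊥ := by
          rw [← hm, hJd, ← pow_add]
          exact Ideal.pow_le_pow_right (by omega)
        exact (Ideal.mem_bot).1 (h7 h6)
      obtain ⟨ρ₁, hρ₁⟩ := ih (Ideal.Quotient.lift J π (fun a ha => hJI ha))
        (Ideal.Quotient.lift_surjective_of_surjective J _ hs)
        (by
          rw [Ideal.ker_quotient_lift π hJI, ← Ideal.map_pow, ← hJd, Ideal.map_quotient_self])
        (by
          have h8 := hC.map (Ideal.Quotient.mk J)
          rwa [map_natCast] at h8)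
      have hsurj : Function.Surjective
          ((Ideal.Quotient.mk J).mapMatrix : Matrix n n R →+* Matrix n n (R ⧸ J)) := by
        intro y
        choose f hf using Ideal.Quotient.mk_surjective (I := J)
        refine ⟨y.map f, ?_⟩
        ext i j
        simp [hf]
      have hker : ∀ x y : Matrix n n R, (Ideal.Quotient.mk J).mapMatrix x = 0 →
          (Ideal.Quotient.mk J).mapMatrix y = 0 → x * y = 0 := by
        intro x y hx hy
        have hx' : ∀ i j, x i j ∈ J := by
          intro i j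
          have h4 := congrFun (congrFun hx i) j
          rw [RingHom.mapMatrix_apply, Matrix.map_apply, Matrix.zero_apply] at h4
          exact Ideal.Quotient.eq_zero_iff_mem.1 h4
        have hy' : ∀ i j, y i j ∈ J := by
          intro i j
          have h4 := congrFun (congrFun hy i) j
          rw [RingHom.mapMatrix_apply, Matrix.map_apply, Matrix.zero_apply] at h4
          exact Ideal.Quotient.eq_zero_iff_mem.1 h4
        ext i j
        rw [Matrix.mul_apply, Matrix.zero_apply]
        exact Finset.sum_eq_zero fun k _ => hJJ _ _ (hx' i k) (hy' k j)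
      have hunit : IsUnit ((Fintype.card C : ℕ) : Matrix n n R) := by
        have h5 := hC.map (Matrix.scalar n : R →+* Matrix n n R)
        rwa [map_natCast] at h5
      obtain ⟨ρ', hρ'⟩ := lift_sq (E := Matrix n n R) (Ideal.Quotient.mk J).mapMatrix hsurj hker
        hunit ρ₁
      refine ⟨ρ', fun g => ?_⟩
      rw [← hρ₁, ← hρ']
      ext i j
      simp

end Pool.Agent.Lib.P0c8ca5.Zz
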