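import Mathlib

/-!
# Module Diag: diagonalization

PROOF of `exists_diag`.  The minimal polynomial of `T` divides a product of distinct linear factors, so the space
`n → k` is the (internal) direct sum of the eigenspaces of `T` (e.g. by induction on `S` with
`ker (f g)(T) = ker f(T) ⊕ ker g(T)` for coprime `f`, `g` -- `Polynomial.sup_ker_aeval_eq_ker_aeval_mul_of_coprime`,
`Polynomial.disjoint_ker_aeval_of_isCoprime` -- or with `Module.End.isSemisimple_of_squarefree_aeval_eq_zero`).  Choose a basis
of eigenvectors indexed by `n`; its matrix `V` (columns the eigenvectors) is invertible, `U` is its inverse.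

PROOF of `roots_diag`.  `U * T * V = diagonal d` is similar to `T` (`Matrix.charpoly` is invariant under conjugation by a
unit, e.g. `Matrix.charpoly_units_conj`), and `charpoly (diagonal d) = ∏ i, (X - C (d i))`.

PROOF of `diag_of_pow`.  `T ^ N = 1` and `(N : k) ≠ 0`: `X ^ N - 1` is the product of `X - c` over the `N`-th roots of
unity `c` (`k` is algebraically closed, `X ^ N - 1` is separable).  Use `exists_diag`.

PROOF of `diag_of_idem`.  `S = {0, 1}`.
-/

namespace Pool.Agent.Lib.P0c8ca5.Zz

open Polynomial

private theorem ker_le_iSup {k : Type*} [Field k] {M : Type*} [AddCommGroup M] [Module k M]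
    (f : Module.End k M) (S : Finset k) :
    LinearMap.ker (aeval f (∏ c ∈ S, (X - C c) : k[X])) ≤
      ⨆ c : S, Module.End.eigenspace f (c : k) := by
  classical
  induction S using Finset.induction_on with
  | empty =>
    rw [Finset.prod_empty, map_one]
    intro x hx
    rw [LinearMap.mem_ker] at hx
    have : x = 0 := hx
    rw [this]
    exact Submodule.zero_mem _
  | insert a s ha ih =>
    rw [Finset.prod_insert ha]
    have hcop : IsCoprime (X - C a : k[X]) (∏ c ∈ s, (X - C c) : k[X]) := by
      apply IsCoprime.prod_right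
      intro c hc
      apply isCoprime_X_sub_C_of_isUnit_sub
      rw [isUnit_iff_ne_zero, sub_ne_zero]
      rintro rfl
      exact ha hc
    rw [← sup_ker_aeval_eq_ker_aeval_mul_of_coprime f hcop]
    apply sup_le
    · have h1 : LinearMap.ker (aeval f (X - C a : k[X])) = Module.End.eigenspace f a := by
        rw [Module.End.eigenspace_def]
        simp [Algebra.algebraMap_eq_smul_one]
      rw [h1]
      exact le_iSup (fun c : ((insert a s : Finset k)) => Module.End.eigenspace f (c : k))
        ⟨a, Finset.mem_insert_self a s⟩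
    · refine ih.trans ?_
      apply iSup_le
      intro c
      exact le_iSup (fun c : ((insert a s : Finset k)) => Module.End.eigenspace f (c : k))
        ⟨c, Finset.mem_insert_of_mem c.2⟩

theorem exists_diag {k : Type*} [Field k] {n : Type*} [Fintype n] [DecidableEq n]
    (T : Matrix n n k) (S : Finset k)
    (hS : aeval T (∏ c ∈ S, (X - C c) : k[X]) = 0) :
    ∃ (U V : Matrix n n k) (d : n → k), U * V = 1 ∧ V * U = 1 ∧ U * T * V = Matrix.diagonal d := by
  classical
  set f : Module.End k (n → k) := Matrix.toLin' T with hf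
  have hfS : aeval f (∏ c ∈ S, (X - C c) : k[X]) = 0 := by
    have h1 : f = Matrix.toLinAlgEquiv' T := rfl
    rw [h1, aeval_algEquiv, AlgHom.comp_apply, hS, map_zero]
  have htop : (⨆ c : S, Module.End.eigenspace f (c : k)) = ⊤ := by
    rw [eq_top_iff]
    refine le_trans ?_ (ker_le_iSup f S)
    rw [hfS, LinearMap.ker_zero]
  have hind : iSupIndep (fun c : S => Module.End.eigenspace f (c : k)) :=
    (Module.End.eigenspaces_iSupIndep f).comp Subtype.val_injective
  have hint := DirectSum.isInternal_submodule_of_iSupIndep_of_iSup_eq_top hind htop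
  let b0 := hint.collectedBasis (fun c => Module.finBasis k (Module.End.eigenspace f (c : k)))
  have hcard : Fintype.card (Σ c : S, Fin (Module.finrank k (Module.End.eigenspace f (c : k))))
      = Fintype.card n := by
    rw [← Module.finrank_eq_card_basis b0, Module.finrank_fintype_fun_eq_card]
  let e := Fintype.equivOfCardEq hcard
  let b := b0.reindex e
  let V : Matrix n n k := (Pi.basisFun k n).toMatrix b
  let U : Matrix n n k := b.toMatrix (Pi.basisFun k n)
  have hUV : U * V = 1 := Module.Basis.toMatrix_mul_toMatrix_flip _ _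
  have hVU : V * U = 1 := Module.Basis.toMatrix_mul_toMatrix_flip _ _
  let d : n → k := fun i => ((e.symm i).1 : k)
  refine ⟨U, V, d, hUV, hVU, ?_⟩
  have hb : ∀ j, f (b j) = d j • b j := by
    intro j
    have h1 : b j ∈ Module.End.eigenspace f (d j) := by
      have := hint.collectedBasis_mem
        (fun c => Module.finBasis k (Module.End.eigenspace f (c : k))) (e.symm j)
      have h2 : b j = b0 (e.symm j) := by simp [b]
      rw [h2]
      exact this
    exact Module.End.mem_eigenspace_iff.mp h1
  have hTV : T * V = V * Matrix.diagonal d := by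
    ext i j
    rw [Matrix.mul_diagonal]
    have h2 := congrFun (hb j) i
    rw [hf, Matrix.toLin'_apply] at h2
    have h3 : ∀ i, V i j = b j i := by
      intro i
      simp [V, Module.Basis.toMatrix_apply]
    rw [Matrix.mul_apply]
    simp_rw [h3]
    rw [Matrix.mulVec, dotProduct] at h2
    rw [h2, Pi.smul_apply, smul_eq_mul, mul_comm]
  rw [Matrix.mul_assoc, hTV, ← Matrix.mul_assoc, hUV, Matrix.one_mul]

theorem roots_diag {k : Type*} [Field k] {n : Type*} [Fintype n] [DecidableEq n]
    (T U V : Matrix n n k) (d : n → k) (h1 : U * V = 1) (h2 : V * U = 1)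
    (h : U * T * V = Matrix.diagonal d) : T.charpoly.roots = Finset.univ.val.map d := by
  have h3 : T.charpoly = (Matrix.diagonal d).charpoly := by
    rw [← h]
    let M : (Matrix n n k)ˣ := ⟨U, V, h1, h2⟩
    have h5 := Matrix.charpoly_units_conj M T
    have h6 : U⁻¹ = V := Matrix.inv_eq_right_inv h1
    rw [← h5]
    change (U * T * U⁻¹).charpoly = _
    rw [h6]
  rw [h3, Matrix.charpoly_diagonal]
  have h4 : (∏ i, (X - C (d i)) : k[X])
      = ((Finset.univ.val.map d).map fun a => X - C a).prod := by
    rw [Multiset.map_map]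
    rfl
  rw [h4, roots_multiset_prod_X_sub_C]

theorem diag_of_pow {k : Type*} [Field k] [IsAlgClosed k] {n : Type*} [Fintype n] [DecidableEq n]
    (T : Matrix n n k) {N : ℕ} (hT : T ^ N = 1) (hN : (N : k) ≠ 0) :
    ∃ (U V : Matrix n n k) (d : n → k), U * V = 1 ∧ V * U = 1 ∧
      U * T * V = Matrix.diagonal d ∧ ∀ i, d i ^ N = 1 := by
  classical
  have hN0 : N ≠ 0 := by
    rintro rfl
    exact hN Nat.cast_zero
  have hsep : (X ^ N - 1 : k[X]).Separable := X_pow_sub_one_separable_iff.mpr hN
  have hnd := nodup_roots hsep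
  have hmon : (X ^ N - 1 : k[X]).Monic := by
    have := monic_X_pow_sub_C (1 : k) hN0
    simpa using this
  have hprod : (∏ c ∈ (⟨(X ^ N - 1 : k[X]).roots, hnd⟩ : Finset k), (X - C c) : k[X])
      = X ^ N - 1 := by
    have h1 : Multiset.card (X ^ N - 1 : k[X]).roots = (X ^ N - 1 : k[X]).natDegree :=
      IsAlgClosed.card_roots_eq_natDegree
    exact prod_multiset_X_sub_C_of_monic_of_roots_card_eq hmon h1
  obtain ⟨U, V, d, h1, h2, h3⟩ := exists_diag T ⟨(X ^ N - 1 : k[X]).roots, hnd⟩ (by
    rw [hprod]
    simp [hT])
  refine ⟨U, V, d, h1, h2, h3, ?_⟩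
  have hpow : ∀ m : ℕ, (U * T * V) ^ m = U * T ^ m * V := by
    intro m
    induction m with
    | zero => rw [pow_zero, pow_zero, Matrix.mul_one, h1]
    | succ m ih =>
      rw [pow_succ, ih, pow_succ]
      calc U * T ^ m * V * (U * T * V) = U * T ^ m * (V * U) * T * V := by
            simp only [Matrix.mul_assoc]
        _ = U * (T ^ m * T) * V := by rw [h2, Matrix.mul_one]; simp only [Matrix.mul_assoc]
  have h4 := hpow N
  rw [hT, Matrix.mul_one, h1, h3, Matrix.diagonal_pow] at h4
  intro i
  have h5 := congrFun (congrFun h4 i) i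
  simpa using h5

theorem diag_of_idem {k : Type*} [Field k] {n : Type*} [Fintype n] [DecidableEq n]
    (T : Matrix n n k) (hT : T * T = T) :
    ∃ (U V : Matrix n n k) (d : n → k), U * V = 1 ∧ V * U = 1 ∧
      U * T * V = Matrix.diagonal d ∧ ∀ i, d i = 0 ∨ d i = 1 := by
  classical
  obtain ⟨U, V, d, h1, h2, h3⟩ := exists_diag T {0, 1} (by
    rw [Finset.prod_insert (by simp), Finset.prod_singleton]
    simp [mul_sub, hT])
  refine ⟨U, V, d, h1, h2, h3, ?_⟩
  have h4 : Matrix.diagonal d * Matrix.diagonal d = Matrix.diagonal d := by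
    rw [← h3]
    calc U * T * V * (U * T * V) = U * T * (V * U) * T * V := by simp only [Matrix.mul_assoc]
      _ = U * (T * T) * V := by rw [h2, Matrix.mul_one]; simp only [Matrix.mul_assoc]
      _ = U * T * V := by rw [hT]
  intro i
  rw [Matrix.diagonal_mul_diagonal] at h4
  have h5 := congrFun (congrFun h4 i) i
  simp only [Matrix.diagonal_apply_eq] at h5
  rcases eq_or_ne (d i) 0 with h | h
  · exact Or.inl h
  · right
    exact mul_left_cancel₀ h (by rw [h5, mul_one])

end Pool.Agent.Lib.P0c8ca5.Zz
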