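import Mathlib

/-!
# Module Nil: matrices over a ring with nilpotent ideal

`π : R → k` is a surjective homomorphism with nilpotent kernel.

PROOF of `isUnit_of_map`.  `x y ≡ 1` modulo the kernel for some `y` (`k` a field, `π` surjective); `1 + nilpotent` is a unit.
PROOF of `exists_inv_lift`.  Lift `Ū` entrywise to `U`; `det U` is mapped to `det Ū ≠ 0`, so it is a unit, `V := U⁻¹`
(`Matrix.nonsing_inv`).
PROOF of `trace_eq_of_intertwine`.  `T * u = u * D` with `u` mapped to `1`: `det u` is a unit, `T = u D u⁻¹`,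
`Matrix.trace_mul_comm` / `Matrix.trace_mul_cycle`.
PROOF of `trace_idem_congr`.  `u = T * D + (1 - T) * (1 - D)`: `T u = T D = u D` and `π u = π T * π T + (1 - π T)(1 - π T) = 1`.
PROOF of `trace_pow_congr`.  `u = (1/N) ∑ j < N, T ^ j * D' ^ j` with `D' = D ^ (N - 1)` the inverse of `D` (`N ≥ 1`, as `(N : R)` is
a unit and `R` is nontrivial): `T * u * D' = u` (cyclic shift, `T ^ N = 1 = D' ^ N`), so `T * u = u * D`; `π u = 1` because
`π T ^ j * π D' ^ j = π D ^ j * π D' ^ j = 1`.
-/

namespace Pool.Agent.Lib.P0c8ca5.Zz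

variable {R k : Type*} [CommRing R] [Field k] {n : Type*} [Fintype n] [DecidableEq n]

theorem isUnit_of_map (π : R →+* k) (hs : Function.Surjective π)
    (hn : ∀ x, π x = 0 → IsNilpotent x) {x : R} (hx : π x ≠ 0) : IsUnit x := by
  obtain ⟨y, hy⟩ := hs (π x)⁻¹
  have h1 : IsNilpotent (x * y - 1) := hn _ (by simp [hy, mul_inv_cancel₀ hx])
  have h2 : IsUnit (x * y) := by
    have h3 := h1.isUnit_add_one
    simpa using h3
  exact isUnit_of_mul_isUnit_left h2

theorem exists_inv_lift (π : R →+* k) (hs : Function.Surjective π)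
    (hn : ∀ x, π x = 0 → IsNilpotent x) (U₀ V₀ : Matrix n n k) (h : U₀ * V₀ = 1) :
    ∃ U V : Matrix n n R, U * V = 1 ∧ V * U = 1 ∧ π.mapMatrix U = U₀ ∧ π.mapMatrix V = V₀ := by
  have hlift : ∃ U : Matrix n n R, π.mapMatrix U = U₀ := by
    choose g hg using fun i j => hs (U₀ i j)
    refine ⟨Matrix.of g, ?_⟩
    ext i j
    simp [hg]
  obtain ⟨U, hU⟩ := hlift
  have hdet0 : U₀.det ≠ 0 := by
    intro h0
    have h1 : (U₀ * V₀).det = 1 := by rw [h, Matrix.det_one]
    rw [Matrix.det_mul, h0, zero_mul] at h1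
    exact zero_ne_one h1
  have hdet : IsUnit U.det := by
    apply isUnit_of_map π hs hn
    rw [RingHom.map_det, hU]
    exact hdet0
  have hUV : U * U⁻¹ = 1 := Matrix.mul_nonsing_inv U hdet
  have hVU : U⁻¹ * U = 1 := Matrix.nonsing_inv_mul U hdet
  refine ⟨U, U⁻¹, hUV, hVU, hU, ?_⟩
  have h' : V₀ * U₀ = 1 := mul_eq_one_comm.mp h
  have h1 : U₀ * π.mapMatrix U⁻¹ = 1 := by
    rw [← hU, ← map_mul, hUV, map_one]
  calc π.mapMatrix U⁻¹ = (V₀ * U₀) * π.mapMatrix U⁻¹ := by rw [h', one_mul]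
    _ = V₀ * (U₀ * π.mapMatrix U⁻¹) := mul_assoc _ _ _
    _ = V₀ := by rw [h1, mul_one]

theorem trace_eq_of_intertwine (π : R →+* k) (hs : Function.Surjective π)
    (hn : ∀ x, π x = 0 → IsNilpotent x) (T D u : Matrix n n R) (h : T * u = u * D)
    (hu : π.mapMatrix u = 1) : T.trace = D.trace := by
  have hdet : IsUnit u.det := by
    apply isUnit_of_map π hs hn
    rw [RingHom.map_det, hu, Matrix.det_one]
    exact one_ne_zero
  have hUV : u * u⁻¹ = 1 := Matrix.mul_nonsing_inv u hdet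
  have hVU : u⁻¹ * u = 1 := Matrix.nonsing_inv_mul u hdet
  have hT : T = u * D * u⁻¹ := by
    rw [← h, mul_assoc, hUV, mul_one]
  rw [hT, Matrix.trace_mul_cycle, hVU, one_mul]

theorem trace_idem_congr (π : R →+* k) (hs : Function.Surjective π)
    (hn : ∀ x, π x = 0 → IsNilpotent x) (T D : Matrix n n R) (hT : T * T = T) (hD : D * D = D)
    (h : π.mapMatrix T = π.mapMatrix D) : T.trace = D.trace := by
  refine trace_eq_of_intertwine π hs hn T D (T * D + (1 - T) * (1 - D)) ?_ ?_
  · have h1 : T * (T * D + (1 - T) * (1 - D)) = (T * T) * D + (T - T * T) * (1 - D) := by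
      noncomm_ring
    have h2 : (T * D + (1 - T) * (1 - D)) * D = T * (D * D) + (1 - T) * (D - D * D) := by
      noncomm_ring
    rw [h1, h2, hT, hD, sub_self, sub_self, zero_mul, mul_zero]
  · have hT' : π.mapMatrix T * π.mapMatrix T = π.mapMatrix T := by
      rw [← map_mul, hT]
    rw [map_add, map_mul, map_mul, map_sub, map_sub, map_one, ← h]
    have h3 : π.mapMatrix T * π.mapMatrix T + (1 - π.mapMatrix T) * (1 - π.mapMatrix T)
        = 1 - π.mapMatrix T - π.mapMatrix T + (π.mapMatrix T * π.mapMatrix T)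
          + (π.mapMatrix T * π.mapMatrix T) := by
      noncomm_ring
    rw [h3, hT']
    noncomm_ring

theorem trace_pow_congr (π : R →+* k) (hs : Function.Surjective π)
    (hn : ∀ x, π x = 0 → IsNilpotent x) (T D : Matrix n n R) {N : ℕ} (hN : IsUnit (N : R))
    (hT : T ^ N = 1) (hD : D ^ N = 1) (h : π.mapMatrix T = π.mapMatrix D) :
    T.trace = D.trace := by
  have hnt : Nontrivial R := π.domain_nontrivial
  have hN0 : N ≠ 0 := by
    rintro rfl
    rw [Nat.cast_zero] at hN
    exact not_isUnit_zero hN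
  obtain ⟨c, hc⟩ := hN.exists_left_inv
  obtain ⟨m, rfl⟩ : ∃ m, N = m + 1 := ⟨N - 1, (Nat.succ_pred_eq_of_ne_zero hN0).symm⟩
  have hD1 : D * D ^ m = 1 := by rw [← pow_succ', hD]
  have hD2 : D ^ m * D = 1 := by rw [← pow_succ, hD]
  have hD3 : (D ^ m) ^ (m + 1) = 1 := by rw [← pow_mul, mul_comm, pow_mul, hD, one_pow]
  set S : Matrix n n R := ∑ j ∈ Finset.range (m + 1), T ^ j * (D ^ m) ^ j with hS
  have key : T * S * D ^ m = S := by
    have h1 : T * S * D ^ m = ∑ j ∈ Finset.range (m + 1), T ^ (j + 1) * (D ^ m) ^ (j + 1) := by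
      rw [hS, Finset.mul_sum, Finset.sum_mul]
      refine Finset.sum_congr rfl fun j _ => ?_
      rw [pow_succ' T j, pow_succ (D ^ m) j]
      simp only [mul_assoc]
    have h2 := Finset.sum_range_succ' (fun j => T ^ j * (D ^ m) ^ j) (m + 1)
    have h3 := Finset.sum_range_succ (fun j => T ^ j * (D ^ m) ^ j) (m + 1)
    rw [h1]
    have h4 : (∑ j ∈ Finset.range (m + 1), T ^ (j + 1) * (D ^ m) ^ (j + 1)) + 1 = S + 1 := by
      have h5 : T ^ (m + 1) * (D ^ m) ^ (m + 1) = 1 := by rw [hT, hD3, one_mul]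
      rw [h3] at h2
      simp only [pow_zero, mul_one] at h2
      rw [h5] at h2
      exact h2.symm
    exact add_right_cancel h4
  refine trace_eq_of_intertwine π hs hn T D (c • S) ?_ ?_
  · rw [Matrix.mul_smul, Matrix.smul_mul]
    congr 1
    calc T * S = T * S * (D ^ m * D) := by rw [hD2, mul_one]
      _ = (T * S * D ^ m) * D := by simp only [mul_assoc]
      _ = S * D := by rw [key]
  · have hterm : ∀ j, π.mapMatrix (T ^ j * (D ^ m) ^ j) = 1 := by
      intro j
      rw [map_mul, map_pow, h, ← map_pow, ← map_mul, ← (show Commute D (D ^ m) from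
        (Commute.refl D).pow_right m).mul_pow, hD1, one_pow, map_one]
    have hSm : π.mapMatrix S = (((m + 1 : ℕ) : k)) • (1 : Matrix n n k) := by
      rw [hS, map_sum, Finset.sum_congr rfl fun j _ => hterm j, Finset.sum_const,
        Finset.card_range]
      exact (Nat.cast_smul_eq_nsmul k (m + 1) (1 : Matrix n n k)).symm
    have hcs : π.mapMatrix (c • S) = π c • π.mapMatrix S := by
      ext i j
      simp
    rw [hcs, hSm, smul_smul, ← map_natCast π, ← map_mul, hc, map_one, one_smul]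

end Pool.Agent.Lib.P0c8ca5.Zz
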