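import Mathlib
import Pool.Agent.Lib.P0c8ca5Z.Diag
import Pool.Agent.Lib.P0c8ca5Z.Nil

/-!
# Module TrId: the traces of idempotents and of elements of finite order

PROOF of `trace_idem`.  `diag_of_idem` for `T₀ = π T`: `U₀ T₀ V₀ = diagonal d₀` with `d₀ i ∈ {0, 1}`.  Lift `U₀`, `V₀` to `U`, `V`
(`exists_inv_lift`).  `T' = U T V` and `D = diagonal d`, `d i = if d₀ i = 0 then 0 else 1`, are idempotent and congruent, so
`trace T = trace T' = trace D` (`Matrix.trace_mul_cycle`, `trace_idem_congr`) is the number of the `i` with `d₀ i ≠ 0`, which is the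
rank of `diagonal d₀` (`Matrix.rank_diagonal`) and of `T₀` (`Matrix.rank_mul_eq_left_of_isUnit_det` ...).
PROOF of `trace_ord`.  `diag_of_pow` for `T₀ = π T`: `U₀ T₀ V₀ = diagonal d₀`, `d₀ i ^ N = 1`.  `T' = U T V` and
`D = diagonal (θ (d₀ i))` satisfy `T' ^ N = 1 = D ^ N` and are congruent; `trace_pow_congr`, `roots_diag`.
-/

namespace Pool.Agent.Lib.P0c8ca5.Zz

variable {R k : Type*} [CommRing R] [Field k] {n : Type*} [Fintype n] [DecidableEq n]

theorem trace_idem (π : R →+* k) (hs : Function.Surjective π)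
    (hn : ∀ x, π x = 0 → IsNilpotent x) (T : Matrix n n R) (hT : T * T = T) :
    T.trace = (((π.mapMatrix T).rank : ℕ) : R) := by
  classical
  obtain ⟨U₀, V₀, d, h1, h2, hd, h01⟩ := diag_of_idem (π.mapMatrix T) (by rw [← map_mul, hT])
  obtain ⟨U, V, hUV, hVU, hU, hV⟩ := exists_inv_lift π hs hn U₀ V₀ h1
  have hT' : (U * T * V) * (U * T * V) = U * T * V := by
    calc (U * T * V) * (U * T * V) = U * T * (V * U) * T * V := by noncomm_ring
      _ = U * (T * T) * V := by rw [hVU]; noncomm_ring
      _ = U * T * V := by rw [hT]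
  have hD : Matrix.diagonal (fun i => if d i = 0 then (0 : R) else 1) *
      Matrix.diagonal (fun i => if d i = 0 then (0 : R) else 1) =
      Matrix.diagonal (fun i => if d i = 0 then (0 : R) else 1) := by
    rw [Matrix.diagonal_mul_diagonal]
    congr 1
    funext i
    split_ifs <;> simp
  have hc : π.mapMatrix (U * T * V) =
      π.mapMatrix (Matrix.diagonal (fun i => if d i = 0 then (0 : R) else 1)) := by
    rw [map_mul, map_mul, hU, hV, hd]
    ext i j
    rw [RingHom.mapMatrix_apply, Matrix.map_apply, Matrix.diagonal_apply, Matrix.diagonal_apply]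
    by_cases hij : i = j
    · subst hij
      rcases h01 i with h | h
      · simp [h]
      · simp [h]
    · simp [hij]
  have htr : (U * T * V).trace = T.trace := by
    rw [Matrix.trace_mul_cycle, hVU, one_mul]
  have hrk : (π.mapMatrix T).rank = (Matrix.diagonal d).rank := by
    have hu1 : IsUnit U₀.det := by
      rw [Matrix.isUnit_iff_isUnit_det U₀ |>.symm]
      exact IsUnit.of_mul_eq_one V₀ h1
    have hu2 : IsUnit V₀.det := by
      rw [Matrix.isUnit_iff_isUnit_det V₀ |>.symm]
      exact IsUnit.of_mul_eq_one U₀ h2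
    rw [← hd, Matrix.rank_mul_eq_left_of_isUnit_det V₀ _ hu2,
      Matrix.rank_mul_eq_right_of_isUnit_det U₀ _ hu1]
  rw [← htr, trace_idem_congr π hs hn _ _ hT' hD hc, hrk, Matrix.rank_diagonal,
    Matrix.trace_diagonal, Finset.sum_ite, Finset.sum_const_zero, zero_add, Finset.sum_const,
    nsmul_eq_mul, mul_one, Fintype.card_subtype]

theorem trace_ord [IsAlgClosed k] (π : R →+* k) (hs : Function.Surjective π)
    (hn : ∀ x, π x = 0 → IsNilpotent x) (θ : k →* R) (hθ : ∀ x, π (θ x) = x)
    (T : Matrix n n R) {N : ℕ} (hN : IsUnit (N : R)) (hT : T ^ N = 1) :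
    T.trace = ((π.mapMatrix T).charpoly.roots.map θ).sum := by
  classical
  have hNk : (N : k) ≠ 0 := by
    have h := hN.map π
    rw [map_natCast] at h
    exact h.ne_zero
  obtain ⟨U₀, V₀, d, h1, h2, hd, h01⟩ := diag_of_pow (π.mapMatrix T) (N := N)
    (by rw [← map_pow, hT, map_one]) hNk
  obtain ⟨U, V, hUV, hVU, hU, hV⟩ := exists_inv_lift π hs hn U₀ V₀ h1
  have hpow : ∀ j : ℕ, (U * T * V) ^ j = U * T ^ j * V := by
    intro j
    induction j with
    | zero => simp [hUV]
    | succ j ih =>
      rw [pow_succ, ih]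
      calc U * T ^ j * V * (U * T * V) = U * T ^ j * (V * U) * T * V := by noncomm_ring
        _ = U * (T ^ j * T) * V := by rw [hVU]; noncomm_ring
        _ = U * T ^ (j + 1) * V := by rw [← pow_succ]
  have hT' : (U * T * V) ^ N = 1 := by
    rw [hpow, hT, mul_one, hUV]
  have hD : Matrix.diagonal (fun i => θ (d i)) ^ N = 1 := by
    rw [Matrix.diagonal_pow, ← Matrix.diagonal_one]
    congr 1
    funext i
    simp only [Pi.pow_apply]
    rw [← map_pow, h01, map_one]
  have hc : π.mapMatrix (U * T * V) = π.mapMatrix (Matrix.diagonal (fun i => θ (d i))) := by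
    rw [map_mul, map_mul, hU, hV, hd]
    ext i j
    rw [RingHom.mapMatrix_apply, Matrix.map_apply, Matrix.diagonal_apply, Matrix.diagonal_apply]
    by_cases hij : i = j
    · subst hij
      simp [hθ]
    · simp [hij]
  have htr : (U * T * V).trace = T.trace := by
    rw [Matrix.trace_mul_cycle, hVU, one_mul]
  rw [← htr, trace_pow_congr π hs hn _ _ hN hT' hD hc, roots_diag _ U₀ V₀ d h1 h2 hd,
    Matrix.trace_diagonal, Multiset.map_map]
  rfl

end Pool.Agent.Lib.P0c8ca5.Zz
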