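import Mathlib
import Pool.Agent.Lib.P0c8ca5Z.TrId
import Pool.Agent.Lib.P0c8ca5Z.Lift

/-!
# Module Sum: the number of invariants of a p'-group

`bc p T` is the sum of the Teichmueller representatives of the roots of the characteristic polynomial of `T`.

PROOF of `exists_wit`.  `W = 𝕎 k` (`WittVector p k`), `P = Ideal.span {(p : W)}`, `R = W ⧸ P ^ m` (`m ≥ 1`).  The map `W → k`,
`x ↦ x.coeff 0` (`WittVector.constantCoeff`), is surjective (`WittVector.teichmuller_coeff_zero`) with the kernel `P`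
(e.g. `WittVector.mem_span_p_iff_coeff_zero_eq_zero` in Mathlib.RingTheory.WittVector.Complete, or similar); it induces
`π : R → k` (`Ideal.Quotient.lift`), whose kernel is `P / P ^ m`, so its `m`-th power is zero.  `θ` is
`WittVector.teichmuller p` followed by `Ideal.Quotient.mk`.
PROOF of `sum_bc_mod`.  Take `R`, `π`, `θ` as above.  `(|C| : R)` is a unit (`isUnit_of_map`: it is mapped to `|C| ≠ 0` in `k`).  Lift `ρ`
to `ρ'` (`exists_lift`).  `ρ' g ^ |C| = 1`, so `trace (ρ' g) = ∑ θ (roots)` (`trace_ord`).  `T = |C|⁻¹ ∑ ρ' g` is idempotent, so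
`trace T = rank (π T)` (`trace_idem`), and `π T = |C|⁻¹ ∑ ρ g` is the projection on the invariants: the range of its `mulVecLin` is the
space of the invariants, so its rank (`Matrix.rank` is the `finrank` of the range of `mulVecLin`) is `finrank (inv ρ)`.  So
`|C| * finrank = ∑ g, trace (ρ' g)` in `R`, which is the claim.
PROOF of `sum_bc`.  The difference of the two sides is in `P ^ m` for all `m`, so it is zero: `WittVector.isAdicCompleteIdealSpanP`
(`IsHausdorff`; `P ^ m • ⊤ = P ^ m`).
-/

namespace Pool.Agent.Lib.P0c8ca5.Zz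

open WittVector

variable {k : Type*} [Field k]

/-- the sum of the Teichmueller representatives of the roots of the characteristic polynomial -/
noncomputable def bc (p : ℕ) [Fact p.Prime] {n : Type*} [Fintype n] [DecidableEq n]
    (T : Matrix n n k) : WittVector p k :=
  (T.charpoly.roots.map (teichmuller p)).sum

/-- the invariants -/
def inv {C : Type*} [Group C] {n : Type*} [Fintype n] [DecidableEq n] (ρ : C →* Matrix n n k) :
    Submodule k (n → k) where
  carrier := {v | ∀ g, (ρ g).mulVec v = v}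
  add_mem' := fun {u v} hu hv g => by rw [Matrix.mulVec_add, hu g, hv g]
  zero_mem' := fun g => Matrix.mulVec_zero _
  smul_mem' := fun c v hv g => by rw [Matrix.mulVec_smul, hv g]

theorem mem_inv {C : Type*} [Group C] {n : Type*} [Fintype n] [DecidableEq n]
    {ρ : C →* Matrix n n k} {v : n → k} : v ∈ inv ρ ↔ ∀ g, (ρ g).mulVec v = v := Iff.rfl

theorem exists_wit (p : ℕ) [Fact p.Prime] [CharP k p] [IsAlgClosed k] (m : ℕ) (hm : 0 < m) :
    ∃ (π : (WittVector p k ⧸ (Ideal.span {(p : WittVector p k)}) ^ m) →+* k),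
      Function.Surjective π ∧ RingHom.ker π ^ m = ⊥ ∧
      ∀ x, π (Ideal.Quotient.mk _ (teichmuller p x)) = x := by
  have hker : ∀ a : WittVector p k, a ∈ (Ideal.span {(p : WittVector p k)}) ^ m →
      (constantCoeff : WittVector p k →+* k) a = 0 := by
    intro a ha
    have h1 : a ∈ Ideal.span {(p : WittVector p k)} := Ideal.pow_le_self hm.ne' ha
    rw [← RingHom.mem_ker, ker_constantCoeff]
    exact h1
  refine ⟨Ideal.Quotient.lift _ constantCoeff hker, ?_, ?_, ?_⟩
  · exact Ideal.Quotient.lift_surjective_of_surjective _ _ (constantCoeff_surjective p)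
  · have h1 : RingHom.ker (Ideal.Quotient.lift ((Ideal.span {(p : WittVector p k)}) ^ m)
        (constantCoeff : WittVector p k →+* k) hker) =
        Ideal.map (Ideal.Quotient.mk ((Ideal.span {(p : WittVector p k)}) ^ m))
          (Ideal.span {(p : WittVector p k)}) := by
      refine (Ideal.ker_quotient_lift _ _).trans ?_
      rw [ker_constantCoeff]
    rw [h1, ← Ideal.map_pow, Ideal.map_quotient_self]
  · intro x
    rw [Ideal.Quotient.lift_mk]
    exact teichmuller_coeff_zero p x

namespace SumAux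

theorem inv_eq_range {C : Type*} [Group C] [Fintype C] {n : Type*} [Fintype n] [DecidableEq n]
    (ρ : C →* Matrix n n k) (r : k) (hr : r * (Fintype.card C : k) = 1) :
    LinearMap.range (r • ∑ g, ρ g).mulVecLin = inv ρ := by
  have hg : ∀ g, ρ g * (r • ∑ h, ρ h) = r • ∑ h, ρ h := by
    intro g
    rw [Matrix.mul_smul, Finset.mul_sum]
    congr 1
    calc ∑ h, ρ g * ρ h = ∑ h, ρ (g * h) := by simp only [map_mul]
      _ = ∑ h, ρ h := (Equiv.sum_comp (Equiv.mulLeft g) (fun h => ρ h))
  apply le_antisymm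
  · rintro v ⟨w, rfl⟩
    rw [mem_inv]
    intro g
    rw [Matrix.mulVecLin_apply, Matrix.mulVec_mulVec, hg]
  · intro v hv
    rw [mem_inv] at hv
    refine ⟨v, ?_⟩
    rw [Matrix.mulVecLin_apply, Matrix.smul_mulVec]
    have h1 : (∑ g, ρ g).mulVec v = (Fintype.card C : k) • v := by
      rw [Matrix.sum_mulVec]
      simp only [hv]
      rw [Finset.sum_const, Finset.card_univ, Nat.cast_smul_eq_nsmul]
    rw [h1, smul_smul, hr, one_smul]

theorem main (p : ℕ) [Fact p.Prime] [CharP k p] [IsAlgClosed k] {C : Type*} [Group C]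
    [Fintype C] (hC : ¬ p ∣ Fintype.card C) {n : Type*} [Fintype n] [DecidableEq n]
    (ρ : C →* Matrix n n k) (m : ℕ) (I : Ideal (WittVector p k))
    (π : (WittVector p k ⧸ I) →+* k) (hs : Function.Surjective π) (hk : RingHom.ker π ^ m = ⊥)
    (hθ : ∀ x, π (Ideal.Quotient.mk I (teichmuller p x)) = x) :
    ∑ g, bc p (ρ g) - (Fintype.card C : WittVector p k) * (Module.finrank k (inv ρ) : WittVector p k)
      ∈ I := by
  classical
  have hnil : ∀ x, π x = 0 → IsNilpotent x := by
    intro x hx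
    refine ⟨m, ?_⟩
    have h1 : x ^ m ∈ RingHom.ker π ^ m := Ideal.pow_mem_pow ((RingHom.mem_ker).2 hx) m
    rw [hk] at h1
    exact h1
  have hCk : ((Fintype.card C : ℕ) : k) ≠ 0 := by
    rw [Ne, CharP.cast_eq_zero_iff k p]
    exact hC
  have hu : IsUnit ((Fintype.card C : ℕ) : WittVector p k ⧸ I) := by
    apply isUnit_of_map π hs hnil
    rw [map_natCast]
    exact hCk
  obtain ⟨ρ', hρ'⟩ := exists_lift π hs hk hu ρ
  let θ : k →* (WittVector p k ⧸ I) :=
    ((Ideal.Quotient.mk I : WittVector p k →+* _) : WittVector p k →* _).comp (teichmuller p)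
  have hθ' : ∀ x, π (θ x) = x := hθ
  have hord : ∀ g, (ρ' g).trace = Ideal.Quotient.mk I (bc p (ρ g)) := by
    intro g
    have h1 : ρ' g ^ Fintype.card C = 1 := by
      rw [← map_pow, pow_card_eq_one, map_one]
    have h2 := trace_ord π hs hnil θ hθ' (ρ' g) hu h1
    rw [hρ'] at h2
    rw [h2, bc, map_multiset_sum, Multiset.map_map]
    rfl
  obtain ⟨r, hr⟩ := hu.exists_left_inv
  have hgT : ∀ g, ρ' g * (∑ h, ρ' h) = ∑ h, ρ' h := by
    intro g
    rw [Finset.mul_sum]
    calc ∑ h, ρ' g * ρ' h = ∑ h, ρ' (g * h) := by simp only [map_mul]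
      _ = ∑ h, ρ' h := (Equiv.sum_comp (Equiv.mulLeft g) (fun h => ρ' h))
  have hidem : (r • ∑ g, ρ' g) * (r • ∑ g, ρ' g) = r • ∑ g, ρ' g := by
    rw [Matrix.smul_mul, Matrix.mul_smul, Finset.sum_mul]
    simp only [hgT]
    rw [Finset.sum_const, Finset.card_univ, ← Nat.cast_smul_eq_nsmul (WittVector p k ⧸ I),
      smul_smul r ((Fintype.card C : ℕ) : WittVector p k ⧸ I), hr, one_smul]
  have hπr : π r * ((Fintype.card C : ℕ) : k) = 1 := by
    rw [← map_natCast π, ← map_mul, hr, map_one]
  have hπT : π.mapMatrix (r • ∑ g, ρ' g) = π r • ∑ g, ρ g := by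
    ext i j
    simp only [RingHom.mapMatrix_apply, Matrix.map_apply, Matrix.smul_apply, smul_eq_mul, map_mul,
      Matrix.sum_apply, map_sum]
    congr 1
    refine Finset.sum_congr rfl fun g _ => ?_
    rw [← hρ' g]
    rfl
  have htr := trace_idem π hs hnil (r • ∑ g, ρ' g) hidem
  have hrank : (π.mapMatrix (r • ∑ g, ρ' g)).rank = Module.finrank k (inv ρ) := by
    rw [hπT, Matrix.rank, SumAux.inv_eq_range ρ (π r) hπr]
  rw [hrank, Matrix.trace_smul, Matrix.trace_sum, smul_eq_mul] at htr
  have hfin : ∑ g, (ρ' g).trace =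
      ((Fintype.card C : ℕ) : WittVector p k ⧸ I) * ((Module.finrank k (inv ρ) : ℕ) : _) := by
    rw [← htr, ← mul_assoc, mul_comm ((Fintype.card C : ℕ) : WittVector p k ⧸ I) r, hr, one_mul]
  rw [← Ideal.Quotient.eq_zero_iff_mem, map_sub, map_sum, map_mul, map_natCast, map_natCast,
    sub_eq_zero, ← hfin]
  exact Finset.sum_congr rfl fun g _ => (hord g).symm

end SumAux

theorem sum_bc_mod (p : ℕ) [Fact p.Prime] [CharP k p] [IsAlgClosed k] {C : Type*} [Group C]
    [Fintype C] (hC : ¬ p ∣ Fintype.card C) {n : Type*} [Fintype n] [DecidableEq n]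
    (ρ : C →* Matrix n n k) (m : ℕ) (hm : 0 < m) :
    ∑ g, bc p (ρ g) - (Fintype.card C : WittVector p k) * (Module.finrank k (inv ρ) : WittVector p k)
      ∈ (Ideal.span {(p : WittVector p k)}) ^ m := by
  obtain ⟨π, hs, hk, hθ⟩ := exists_wit (k := k) p m hm
  exact SumAux.main p hC ρ m _ π hs hk hθ

theorem sum_bc (p : ℕ) [Fact p.Prime] [CharP k p] [IsAlgClosed k] {C : Type*} [Group C]
    [Fintype C] (hC : ¬ p ∣ Fintype.card C) {n : Type*} [Fintype n] [DecidableEq n]
    (ρ : C →* Matrix n n k) :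
    ∑ g, bc p (ρ g) = (Fintype.card C : WittVector p k) * (Module.finrank k (inv ρ) : WittVector p k) := by
  rw [← sub_eq_zero]
  refine IsHausdorff.haus (inferInstance : IsHausdorff (Ideal.span {(p : WittVector p k)})
    (WittVector p k)) _ ?_
  intro m
  rw [SModEq.zero, smul_eq_mul, Ideal.mul_top]
  rcases Nat.eq_zero_or_pos m with h | h
  · rw [h, pow_zero, Ideal.one_eq_top]
    exact Submodule.mem_top
  · exact sum_bc_mod p hC ρ m h

end Pool.Agent.Lib.P0c8ca5.Zz
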