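import Mathlib
import Pool.Agent.Lib.P0c8ca5Z.Sum

/-!
# Module InvC: the number of invariants for linear maps

`be p T` is the sum of the Teichmueller representatives of the roots of the characteristic polynomial of the linear map `T`.

PROOF of `sum_be`.  Let `d = finrank V`, `b` a basis indexed by `Fin d` (`Module.finBasis`), `M = LinearMap.toMatrixAlgEquiv b` (multiplicative).
`ρ' : C ⧸ N →* Matrix`, the homomorphism induced by `g ↦ M (ρ g)` (`QuotientGroup.lift`).  `|C ⧸ N| = N.index` is prime to `p`.
`be p (ρ g) = bc p (ρ' g)` (`LinearMap.charpoly_toMatrix`).  `∑ g : C` is `|N|` times the sum over `C ⧸ N` (all fibres have `|N|` elements),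
`|C| = |N| * |C ⧸ N|`, and `inv ρ'` is isomorphic with `Representation.invariants ρ` (the coordinates of `v`); `sum_bc`.
-/

namespace Pool.Agent.Lib.P0c8ca5.Zz

open WittVector

variable {k : Type*} [Field k]

/-- the sum of the Teichmueller representatives of the eigenvalues of a linear map -/
noncomputable def be (p : ℕ) [Fact p.Prime] {V : Type*} [AddCommGroup V] [Module k V]
    [Module.Finite k V] (T : V →ₗ[k] V) : WittVector p k :=
  (T.charpoly.roots.map (teichmuller p)).sum

theorem sum_be (p : ℕ) [Fact p.Prime] [CharP k p] [IsAlgClosed k] {C : Type*} [Group C]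
    [Fintype C] (N : Subgroup C) [N.Normal] (hC : ¬ p ∣ N.index) {V : Type*} [AddCommGroup V]
    [Module k V] [Module.Finite k V] (ρ : Representation k C V) (h : ∀ g ∈ N, ρ g = 1) :
    ∑ g, be p (ρ g) = (Fintype.card C : WittVector p k)
      * (Module.finrank k ↥(Representation.invariants ρ) : WittVector p k) := by
  classical
  set b := Module.finBasis k V with hb
  set M : (V →ₗ[k] V) →* Matrix (Fin (Module.finrank k V)) (Fin (Module.finrank k V)) k :=
    ((LinearMap.toMatrixAlgEquiv b).toRingEquiv.toRingHom : (V →ₗ[k] V) →+* _).toMonoidHom with hM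
  have hMf : ∀ f, M f = LinearMap.toMatrixAlgEquiv b f := fun f => rfl
  set ρM : C →* Matrix (Fin (Module.finrank k V)) (Fin (Module.finrank k V)) k := M.comp ρ with hρM
  have hN : ∀ g ∈ N, ρM g = 1 := by
    intro g hg
    rw [hρM, MonoidHom.comp_apply, h g hg, map_one]
  set ρ' : C ⧸ N →* Matrix (Fin (Module.finrank k V)) (Fin (Module.finrank k V)) k :=
    QuotientGroup.lift N ρM hN with hρ'
  have hmk : ∀ g : C, ρ' (QuotientGroup.mk' N g) = LinearMap.toMatrixAlgEquiv b (ρ g) := by
    intro g
    rfl
  have hbe : ∀ g : C, be p (ρ g) = bc p (ρ' (QuotientGroup.mk' N g)) := by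
    intro g
    rw [hmk g]
    unfold be bc
    have hch : (LinearMap.toMatrixAlgEquiv b (ρ g)).charpoly = (ρ g).charpoly := by
      have h1 := LinearMap.charpoly_toMatrix (ρ g) b
      exact h1
    rw [hch]
  have hcard : Fintype.card C = Fintype.card (C ⧸ N) * Fintype.card N := by
    have h1 := Subgroup.card_eq_card_quotient_mul_card_subgroup N
    simpa [Nat.card_eq_fintype_card] using h1
  have hidx : N.index = Fintype.card (C ⧸ N) := by
    rw [Subgroup.index_eq_card, Nat.card_eq_fintype_card]
  have hfib : ∀ q : C ⧸ N, (Finset.univ.filter fun g : C => QuotientGroup.mk' N g = q).card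
      = Fintype.card N := by
    intro q
    have h1 := MonoidHom.card_fiber_eq_of_mem_range (QuotientGroup.mk' N) (x := q) (y := 1)
      (QuotientGroup.mk'_surjective N q) ⟨1, map_one _⟩
    rw [h1, ← Fintype.card_coe]
    refine Fintype.card_congr ?_
    refine Equiv.subtypeEquivRight fun g => ?_
    rw [Finset.mem_filter]
    simp
  have hsum : ∑ g : C, be p (ρ g) = (Fintype.card N : WittVector p k)
      * ∑ q : C ⧸ N, bc p (ρ' q) := by
    rw [Finset.sum_congr rfl fun g _ => hbe g,
      Finset.sum_comp (fun q : C ⧸ N => bc p (ρ' q)) (QuotientGroup.mk' N)]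
    have himg : Finset.univ.image (QuotientGroup.mk' N) = Finset.univ :=
      Finset.image_univ_of_surjective (QuotientGroup.mk'_surjective N)
    rw [himg, Finset.mul_sum]
    refine Finset.sum_congr rfl fun q _ => ?_
    rw [hfib q, nsmul_eq_mul]
  have hinv : Module.finrank k (inv ρ') = Module.finrank k ↥(Representation.invariants ρ) := by
    have h1 : (Representation.invariants ρ).map (b.equivFun : V →ₗ[k] (Fin (Module.finrank k V) → k))
        = inv ρ' := by
      ext v
      rw [Submodule.mem_map, mem_inv]
      have key : ∀ (g : C) (x : V), (ρ' (QuotientGroup.mk' N g)).mulVec (b.equivFun x)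
          = b.equivFun (ρ g x) := by
        intro g x
        rw [hmk g]
        exact LinearMap.toMatrix_mulVec_repr b b (ρ g) x
      constructor
      · rintro ⟨x, hx, rfl⟩ q
        obtain ⟨g, rfl⟩ := QuotientGroup.mk'_surjective N q
        have h2 := key g x
        rw [(Representation.mem_invariants ρ x).1 hx g] at h2
        exact h2
      · intro hv
        refine ⟨b.equivFun.symm v, ?_, ?_⟩
        · rw [Representation.mem_invariants]
          intro g
          apply b.equivFun.injective
          rw [← key g, LinearEquiv.apply_symm_apply]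
          exact hv _
        · exact LinearEquiv.apply_symm_apply _ _
    rw [← h1]
    exact LinearEquiv.finrank_map_eq b.equivFun _
  rw [hsum, sum_bc p (by rw [← hidx]; exact hC) ρ', hinv, hcard]
  push_cast
  ring

end Pool.Agent.Lib.P0c8ca5.Zz
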