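import Mathlib
import Pool.Agent.Lib.P0c8ca5Z.InvC
import Pool.Agent.Lib.P0c8ca5Z.Orb
import Pool.Agent.Lib.P0c8ca5Q.RvB

/-!
# Module TauS: the sum over the centralizer of a coset

`N` is normal in `Y` of index prime to `p`, `f` a `Y`-invariant idempotent of `kN`.  `tau p N f x y` is `be p` of the conjugation
by `y` on `Fs p N N f x` (the `N`-invariant elements `a` supported on `N x`, constant on the p-sections, with `f a = a`).

PROOF of `cj_mem_Fs`.  `Fs p N N f x` for `x, y ∈ Y`, `y x y⁻¹ x⁻¹ ∈ N`: (support) `(cj y a).coeff z = a.coeff (y⁻¹ z y) ≠ 0` gives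
`y⁻¹ z y x⁻¹ ∈ N`, so `z y x⁻¹ y⁻¹ ∈ N` (`y` normalizes `N`), and `y x y⁻¹ x⁻¹ ∈ N` gives `z x⁻¹ ∈ N` (`z x⁻¹ = z (y x⁻¹ y⁻¹) (y x y⁻¹ x⁻¹)`);
(`N`-invariance) for `n ∈ N`, `y⁻¹ (n z n⁻¹) y = n' (y⁻¹ z y) n'⁻¹`, `n' = y⁻¹ n y ∈ N`, and `n' x n'⁻¹ x⁻¹ ∈ N` because `x` normalizes `N`
(the same for the converse: in `mem_Fs` the second condition is for all `n ∈ N` with `n x n⁻¹ x⁻¹ ∈ N`, which is automatic for `x ∈ Y`);
(sections) `pr p (y⁻¹ z y) = y⁻¹ (pr p z) y` (`pr` is a power); `f * cj y a = cj y (f * a)` as `cj y f = f` (`invBy_iff_cj`, `cj_mul`).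
PROOF of `mem_Fs_Y`.  Clear from `mem_Fs` and `invBy_iff_cj`-like rewriting (`coeff_cj`; use `y` and `y⁻¹`).
PROOF of `sum_tau`.  Let `C = cx N Y hn x`, `N' = N.subgroupOf C` (`N ≤ C` as `x` normalizes `N`; normal of index prime to `p`: the elements
of `Y` have powers of exponent prime to `p` in `N`, so `p` does not divide the index, by Cauchy).  `C` acts on `V = ↥(Fs p N N f x)` by
`y ↦ (cjL y).restrict _` (`cj_mem_Fs`), `N` acts trivially.  `sum_be`; the invariants of `C` are, as a subspace of `V`, the elements of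
`Fs p Y N f x` (`mem_Fs_Y`), so the dimensions are equal.
-/

namespace Pool.Agent.Lib.P0c8ca5.Zz

open MonoidAlgebra Pool.Agent.Lib.P0c8ca5.Bq WittVector

variable {p : ℕ} {k : Type*} [Field k] {A : Type*} [Group A]

/-- conjugation as a linear map -/
noncomputable def cjL (y : A) : MonoidAlgebra k A →ₗ[k] MonoidAlgebra k A where
  toFun := cj y
  map_add' := cj_add y
  map_smul' := fun c a => cj_smul y c a

theorem cjL_apply (y : A) (a : MonoidAlgebra k A) : cjL y a = cj y a := rfl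

open Classical in
/-- the value of the pair `(x, y)` -/
noncomputable def tau (p : ℕ) [Fact p.Prime] [Finite A] (N : Subgroup A) (f : MonoidAlgebra k A)
    (x y : A) : WittVector p k :=
  if h : ∀ a ∈ Fs p N N f x, cjL y a ∈ Fs p N N f x then be p ((cjL y).restrict h) else 0

namespace TauSAux

theorem conjN {N Y : Subgroup A} (hn : Y ≤ Subgroup.normalizer (N : Set A)) {y m : A}
    (hy : y ∈ Y) (hm : m ∈ N) : y * m * y⁻¹ ∈ N :=
  (Subgroup.mem_normalizer_iff.1 (hn hy) m).1 hm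

theorem conjN' {N Y : Subgroup A} (hn : Y ≤ Subgroup.normalizer (N : Set A)) {y m : A}
    (hy : y ∈ Y) (hm : m ∈ N) : y⁻¹ * m * y ∈ N := by
  have h := conjN hn (Y.inv_mem hy) hm
  rwa [inv_inv] at h

/-- an element of `N` commutes with `x ∈ Y` modulo `N` -/
theorem comN {N Y : Subgroup A} (hn : Y ≤ Subgroup.normalizer (N : Set A)) {x m : A}
    (hx : x ∈ Y) (hm : m ∈ N) : m * x * m⁻¹ * x⁻¹ ∈ N := by
  have h := N.mul_mem hm (conjN hn hx (N.inv_mem hm))
  have e : m * (x * m⁻¹ * x⁻¹) = m * x * m⁻¹ * x⁻¹ := by group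
  rwa [e] at h

end TauSAux

open TauSAux

theorem cj_mem_Fs {N Y : Subgroup A} (hn : Y ≤ Subgroup.normalizer (N : Set A))
    {f : MonoidAlgebra k A} (hfi : InvBy Y f) {x y : A} (hx : x ∈ Y) (hy : y ∈ Y)
    (hxy : y * x * y⁻¹ * x⁻¹ ∈ N) {a : MonoidAlgebra k A} (ha : a ∈ Fs p N N f x) :
    cj y a ∈ Fs p N N f x := by
  obtain ⟨h1, h2, h3, h4⟩ := mem_Fs.1 ha
  refine mem_Fs.2 ⟨fun z hz => ?_, fun n hN _ z => ?_, fun z hz => ?_, ?_⟩
  · rw [coeff_cj] at hz
    have h5 := N.mul_mem (conjN hn hy (h1 _ hz)) hxy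
    have e : y * (y⁻¹ * z * y * x⁻¹) * y⁻¹ * (y * x * y⁻¹ * x⁻¹) = z * x⁻¹ := by group
    rwa [e] at h5
  · rw [coeff_cj, coeff_cj]
    have hn' := conjN' hn hy hN
    have h5 := h2 _ hn' (comN hn hx hn') (y⁻¹ * z * y)
    rw [← h5]
    congr 1
    group
  · rw [coeff_cj, coeff_cj]
    have h5 := conjN' hn hy (N.mul_mem hz (N.inv_mem hxy))
    have e : y⁻¹ * (z * x⁻¹ * (y * x * y⁻¹ * x⁻¹)⁻¹) * y = y⁻¹ * z * y * x⁻¹ := by group
    rw [e] at h5
    have h6 := h3 _ h5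
    have h7 := pr_conj (p := p) y⁻¹ z
    rw [inv_inv] at h7
    rw [← h6, h7]
  · have h5 : cj y f = f := invBy_iff_cj.1 hfi y hy
    calc f * cj y a = cj y f * cj y a := by rw [h5]
      _ = cj y (f * a) := (cj_mul y f a).symm
      _ = cj y a := by rw [h4]

theorem mem_Fs_Y {N Y : Subgroup A} (hNY : N ≤ Y) (hn : Y ≤ Subgroup.normalizer (N : Set A))
    {f : MonoidAlgebra k A} {x : A} (hx : x ∈ Y) {a : MonoidAlgebra k A} :
    a ∈ Fs p Y N f x ↔ a ∈ Fs p N N f x ∧ ∀ y ∈ cx N Y hn x, cj y a = a := by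
  constructor
  · intro ha
    obtain ⟨h1, h2, h3, h4⟩ := mem_Fs.1 ha
    refine ⟨mem_Fs.2 ⟨h1, fun n hN h z => h2 n (hNY hN) h z, h3, h4⟩, fun y hy => ?_⟩
    ext z
    rw [coeff_cj]
    obtain ⟨h5, h6⟩ := mem_cx.1 ((cx N Y hn x).inv_mem hy)
    have h7 := h2 y⁻¹ h5 h6 z
    rwa [inv_inv] at h7
  · rintro ⟨ha, hc⟩
    obtain ⟨h1, h2, h3, h4⟩ := mem_Fs.1 ha
    refine mem_Fs.2 ⟨h1, fun y hy hyx z => ?_, h3, h4⟩
    have h5 := hc y⁻¹ ((cx N Y hn x).inv_mem (mem_cx.2 ⟨hy, hyx⟩))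
    have h6 := congrArg (fun b => b.coeff z) h5
    simp only [coeff_cj, inv_inv] at h6
    exact h6

namespace TauSAux

/-- the representation of the centralizer of the coset -/
noncomputable def rh (p : ℕ) {N Y : Subgroup A} (hn : Y ≤ Subgroup.normalizer (N : Set A))
    {f : MonoidAlgebra k A} (hfi : InvBy Y f) {x : A} (hx : x ∈ Y) :
    Representation k ↥(cx N Y hn x) ↥(Fs p N N f x) where
  toFun y := (cjL (y : A)).restrict
    (fun a ha => cj_mem_Fs hn hfi hx (mem_cx.1 y.2).1 (mem_cx.1 y.2).2 ha)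
  map_one' := by
    ext a : 2
    exact cj_one_left _
  map_mul' y z := by
    ext a : 2
    exact (cj_cj _ _ _).symm

theorem index_prime [Fact p.Prime] [Finite A] {N C : Subgroup A} (hp : ∀ y ∈ C, Prm p N y)
    [(N.subgroupOf C).Normal] : ¬ p ∣ (N.subgroupOf C).index := by
  intro h
  rw [Subgroup.index_eq_card] at h
  obtain ⟨q, hq⟩ := exists_prime_orderOf_dvd_card' p h
  obtain ⟨y, rfl⟩ := QuotientGroup.mk_surjective q
  obtain ⟨m, hm, hy⟩ := hp (y : A) y.2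
  apply hm
  rw [← hq]
  apply orderOf_dvd_of_pow_eq_one
  rw [← QuotientGroup.mk_pow, QuotientGroup.eq_one_iff, Subgroup.mem_subgroupOf]
  exact hy

end TauSAux

theorem sum_tau [Fact p.Prime] [CharP k p] [IsAlgClosed k] [Fintype A] {N Y : Subgroup A}
    (hNY : N ≤ Y) (hn : Y ≤ Subgroup.normalizer (N : Set A)) (hp : ∀ y ∈ Y, Prm p N y)
    {f : MonoidAlgebra k A} (hfi : InvBy Y f) {x : A} (hx : x ∈ Y)
    [Fintype ↥(cx N Y hn x)] :
    ∑ y : ↥(cx N Y hn x), tau p N f x (y : A)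
      = ((Nat.card ↥(cx N Y hn x) * Module.finrank k ↥(Fs p Y N f x) : ℕ) : WittVector p k) := by
  classical
  have hCY : cx N Y hn x ≤ Y := fun y hy => (mem_cx.1 hy).1
  haveI hnor : (N.subgroupOf (cx N Y hn x)).Normal := by
    refine ⟨fun n hN g => ?_⟩
    rw [Subgroup.mem_subgroupOf] at hN ⊢
    exact conjN hn (hCY g.2) hN
  have hidx : ¬ p ∣ (N.subgroupOf (cx N Y hn x)).index :=
    index_prime (fun y hy => hp y (hCY hy))
  have htriv : ∀ g ∈ N.subgroupOf (cx N Y hn x), rh (k := k) p hn hfi hx g = 1 := by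
    intro g hg
    rw [Subgroup.mem_subgroupOf] at hg
    ext a z
    obtain ⟨h1, h2, h3, h4⟩ := mem_Fs.1 a.2
    have hg' := N.inv_mem hg
    have h5 := h2 _ hg' (comN hn hx hg') z
    rw [inv_inv] at h5
    change (cj (g : A) (a : MonoidAlgebra k A)).coeff z = (a : MonoidAlgebra k A).coeff z
    rw [coeff_cj]
    exact h5
  have key := sum_be p (N.subgroupOf (cx N Y hn x)) hidx (rh (k := k) p hn hfi hx) htriv
  have hinv : (Representation.invariants (rh (k := k) p hn hfi hx)).map (Fs p N N f x).subtype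
      = Fs p Y N f x := by
    ext a
    constructor
    · rintro ⟨b, hb, rfl⟩
      refine (mem_Fs_Y hNY hn hx).2 ⟨b.2, fun y hy => ?_⟩
      exact congrArg Subtype.val (hb ⟨y, hy⟩)
    · intro ha
      obtain ⟨ha1, ha2⟩ := (mem_Fs_Y hNY hn hx).1 ha
      refine ⟨⟨a, ha1⟩, fun y => ?_, rfl⟩
      exact Subtype.ext (ha2 y y.2)
  have hfr : Module.finrank k ↥(Representation.invariants (rh (k := k) p hn hfi hx))
      = Module.finrank k ↥(Fs p Y N f x) := by
    rw [← hinv]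
    exact (Submodule.finrank_map_subtype_eq _ _).symm
  have hsum : ∑ y : ↥(cx N Y hn x), tau p N f x (y : A)
      = ∑ y : ↥(cx N Y hn x), be p (rh (k := k) p hn hfi hx y) := by
    refine Finset.sum_congr rfl fun y _ => ?_
    have h : ∀ a ∈ Fs p N N f x, cjL (y : A) a ∈ Fs p N N f x :=
      fun a ha => cj_mem_Fs hn hfi hx (mem_cx.1 y.2).1 (mem_cx.1 y.2).2 ha
    rw [tau, dif_pos h]
    rfl
  rw [hsum, key, hfr, Nat.card_eq_fintype_card, Nat.cast_mul]

end Pool.Agent.Lib.P0c8ca5.Zz
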