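import Mathlib
import Pool.Agent.Lib.P0c8ca5Z.TauS

/-!
# Module LF: the number of the irreducible representations as a sum over pairs

PROOF of `lf`.  `sum_prs`, `sum_tau`, `Nat.card`, `sum_orb` with `φ x = (finrank (Fs p Y N f x) : 𝕎 k)` -- it is invariant: if
`y z y⁻¹ x⁻¹ ∈ N` then `cj y` maps `Fs p Y N f z` isomorphically onto `Fs p Y N f x` -- then `finrank_dec` and `finrank_Rs`
(`X` from `exists_creps`).
-/

namespace Pool.Agent.Lib.P0c8ca5.Zz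

open MonoidAlgebra Pool.Agent.Lib.P0c8ca5.Bq WittVector

variable {p : ℕ} {k : Type*} [Field k] {A : Type*} [Group A]

namespace LFAux

theorem conj_mem {N Y : Subgroup A} (hn : Y ≤ Subgroup.normalizer (N : Set A)) {y m : A}
    (hy : y ∈ Y) (hm : m ∈ N) : y * m * y⁻¹ ∈ N :=
  (Subgroup.mem_normalizer_iff.1 (hn hy) m).1 hm

theorem conj_mem' {N Y : Subgroup A} (hn : Y ≤ Subgroup.normalizer (N : Set A)) {y m : A}
    (hy : y ∈ Y) (hm : m ∈ N) : y⁻¹ * m * y ∈ N := by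
  have h := conj_mem hn (Y.inv_mem hy) hm
  rwa [inv_inv] at h

/-- conjugation moves `Fs` of `z` to `Fs` of `x` -/
theorem cj_mem {N Y : Subgroup A} (hn : Y ≤ Subgroup.normalizer (N : Set A))
    {f : MonoidAlgebra k A} (hfi : InvBy Y f) {x y z : A} (hy : y ∈ Y)
    (h0 : y * z * y⁻¹ * x⁻¹ ∈ N) {a : MonoidAlgebra k A} (ha : a ∈ Fs p Y N f z) :
    cj y a ∈ Fs p Y N f x := by
  obtain ⟨h1, h2, h3, h4⟩ := mem_Fs.1 ha
  refine mem_Fs.2 ⟨?_, ?_, ?_, ?_⟩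
  · intro w hw
    rw [coeff_cj] at hw
    have h5 := N.mul_mem (conj_mem hn hy (h1 _ hw)) h0
    have e : y * (y⁻¹ * w * y * z⁻¹) * y⁻¹ * (y * z * y⁻¹ * x⁻¹) = w * x⁻¹ := by group
    rwa [e] at h5
  · intro v hv hvx w
    rw [coeff_cj, coeff_cj]
    have h5 : y⁻¹ * v * y ∈ Y := Y.mul_mem (Y.mul_mem (Y.inv_mem hy) hv) hy
    have h6 : y⁻¹ * v * y * z * (y⁻¹ * v * y)⁻¹ * z⁻¹ ∈ N := by
      have h7 := conj_mem' hn hy (N.mul_mem (N.mul_mem (conj_mem hn hv h0) hvx) (N.inv_mem h0))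
      have e : y⁻¹ * (v * (y * z * y⁻¹ * x⁻¹) * v⁻¹ * (v * x * v⁻¹ * x⁻¹)
          * (y * z * y⁻¹ * x⁻¹)⁻¹) * y = y⁻¹ * v * y * z * (y⁻¹ * v * y)⁻¹ * z⁻¹ := by group
      rwa [e] at h7
    have h7 := h2 _ h5 h6 (y⁻¹ * w * y)
    have e : y⁻¹ * v * y * (y⁻¹ * w * y) * (y⁻¹ * v * y)⁻¹ = y⁻¹ * (v * w * v⁻¹) * y := by group
    rwa [e] at h7
  · intro w hw
    rw [coeff_cj, coeff_cj]
    have h5 : y⁻¹ * w * y * z⁻¹ ∈ N := by
      have h6 := conj_mem' hn hy (N.mul_mem hw (N.inv_mem h0))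
      have e : y⁻¹ * (w * x⁻¹ * (y * z * y⁻¹ * x⁻¹)⁻¹) * y = y⁻¹ * w * y * z⁻¹ := by group
      rwa [e] at h6
    have h6 := h3 _ h5
    have h7 : pr p (y⁻¹ * w * y) = y⁻¹ * pr p w * y := by
      have h8 := pr_conj (p := p) y⁻¹ w
      rwa [inv_inv] at h8
    rwa [h7] at h6
  · calc f * cj y a = cj y f * cj y a := by rw [invBy_iff_cj.1 hfi y hy]
      _ = cj y (f * a) := (cj_mul y f a).symm
      _ = cj y a := by rw [h4]

/-- the dimension of `Fs` is constant on the classes -/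
theorem finrank_cj {N Y : Subgroup A} (hn : Y ≤ Subgroup.normalizer (N : Set A))
    {f : MonoidAlgebra k A} (hfi : InvBy Y f) {x y z : A} (hy : y ∈ Y)
    (h0 : y * z * y⁻¹ * x⁻¹ ∈ N) :
    Module.finrank k ↥(Fs p Y N f z) = Module.finrank k ↥(Fs p Y N f x) := by
  have h1 : y⁻¹ * x * y⁻¹⁻¹ * z⁻¹ ∈ N := by
    have h2 := conj_mem' hn hy (N.inv_mem h0)
    have e : y⁻¹ * (y * z * y⁻¹ * x⁻¹)⁻¹ * y = y⁻¹ * x * y⁻¹⁻¹ * z⁻¹ := by group
    rwa [e] at h2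
  refine LinearEquiv.finrank_eq (LinearEquiv.mk ⟨⟨fun a => ⟨cj y a.1, cj_mem hn hfi hy h0 a.2⟩,
    fun a b => Subtype.ext (cj_add y a.1 b.1)⟩, fun c a => Subtype.ext (cj_smul y c a.1)⟩
    (fun a => ⟨cj y⁻¹ a.1, cj_mem hn hfi (Y.inv_mem hy) h1 a.2⟩) ?_ ?_)
  · intro a
    refine Subtype.ext ?_
    show cj y⁻¹ (cj y a.1) = a.1
    rw [cj_cj, inv_mul_cancel, cj_one_left]
  · intro a
    refine Subtype.ext ?_
    show cj y (cj y⁻¹ a.1) = a.1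
    rw [cj_cj, mul_inv_cancel, cj_one_left]

end LFAux

open LFAux

theorem lf [Fact p.Prime] [CharP k p] [IsAlgClosed k] [Fintype A] {N Y : Subgroup A}
    (hNY : N ≤ Y) (hn : Y ≤ Subgroup.normalizer (N : Set A)) (hp : ∀ y ∈ Y, Prm p N y)
    {f : MonoidAlgebra k A} (hf : SuppIn N f) (hfi : InvBy Y f) (hff : f * f = f) :
    ∑ z ∈ prs N Y, tau p N f z.1 z.2
      = ((Nat.card N * Nat.card Y * Nat.card (IrX Y f) : ℕ) : WittVector p k) := by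
  classical
  obtain ⟨X, hX⟩ := exists_creps p hNY hn
  have hfx : f ∈ fixAlg k Y Y := mem_fixAlg.2 ⟨fun x hx => hNY (hf x hx), hfi⟩
  have h1 : ∀ x ∈ Finset.univ.filter (fun x : A => x ∈ Y),
      ∑ y : ↥(cx N Y hn x), tau p N f x (y : A)
        = Nat.card ↥(cx N Y hn x) • ((Module.finrank k ↥(Fs p Y N f x) : ℕ) : WittVector p k) := by
    intro x hx
    rw [sum_tau hNY hn hp hfi (Finset.mem_filter.1 hx).2, nsmul_eq_mul, Nat.cast_mul]
  have h2 := sum_orb hNY hn hX hp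
    (fun x => ((Module.finrank k ↥(Fs p Y N f x) : ℕ) : WittVector p k))
    (fun x _ y hy z _ h0 => congrArg (fun n : ℕ => (n : WittVector p k))
      (finrank_cj hn hfi hy h0))
  rw [sum_prs hn (fun x y => tau p N f x y)]
  refine (Finset.sum_congr rfl ?_).trans (h2.trans ?_)
  · intro x hx
    rw [← h1 x hx]
  · rw [← Finset.smul_sum, nsmul_eq_mul, ← finrank_Rs hfx hff, finrank_dec hNY hn hf hfi hff hX,
      Nat.cast_mul (Nat.card N * Nat.card Y), Nat.cast_sum]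

end Pool.Agent.Lib.P0c8ca5.Zz
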