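import Mathlib
import Pool.Agent.Lib.P0c8ca5Z.LF
import Pool.Agent.Lib.P0c8ca5Z.DzN
import Pool.Agent.Lib.P0c8ca5P.Fam

/-!
# Module WsR: the weights of one p-subgroup as a sum over pairs

`N` is normal in `Y` of index prime to `p`, `R ≤ N` a p-group, `f` a `Y`-invariant idempotent of `kN`.  `tauR p N f R x y` is the value
`tau` of the images of `x`, `y` in `N_A(R)/R` (`0` if `x` or `y` does not normalize `R`).

PROOF of `sum_prs_sec`.  The map `(x, y) ↦ (x̄, ȳ)` from the pairs `(x, y) ∈ prs N Y` with `x, y ∈ N_A(R)` to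
`prs (sec N R) (sec Y R)` is surjective with fibres of `|R| ^ 2` elements (`R ≤ N ≤ Y`; `[y, x] ∈ N` iff `[ȳ, x̄] ∈ sec N R`).
PROOF of `card_sec`.  `sec Y R = N_Y(R) / R` for `R ≤ Y` (there may be such a lemma in the library).
PROOF of `sum_tauR`.  `c = proj R f` is an idempotent of `k (sec N R)`, invariant under `sec Y R` (`proj_suppIn`, `proj_invBy'`, `proj_mul`
as in P0c8ca5.Official `projHom`; `f` is `R`-invariant as `R ≤ Y`), `sec N R ≤ sec Y R` is normal, and all elements of `sec Y R` have powers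
of exponent prime to `p` in `sec N R`.  `F = dzF p (sec N R) c`.  `lf` for `sec N R`, `sec Y R`, `F` (`dzF_supp`, `dzF_inv`, `dzF_idem`) and
`card_dz_N`: the sum of `tau` over `prs (sec N R) (sec Y R)` is `|sec N R| |sec Y R| |{g}|`.  Multiply by `|R| ^ 2`.
-/

namespace Pool.Agent.Lib.P0c8ca5.Zz

open MonoidAlgebra Pool.Agent.Lib.P0c8ca5.Bq WittVector

variable {p : ℕ} {k : Type*} [Field k] {A : Type*} [Group A]

namespace WsRAux

open Classical in
/-- summing over the classes modulo `R` -/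
theorem sum_cls [Fintype A] {R : Subgroup A} [Fintype (NQ R)] {M : Type*} [AddCommMonoid M]
    (g : NQ R → M) :
    ∑ x : A, (if h : x ∈ Subgroup.normalizer (R : Set A) then g (qm R x h) else 0)
      = Nat.card R • ∑ q, g q := by
  have h1 : ∀ x : A, (if h : x ∈ Subgroup.normalizer (R : Set A) then g (qm R x h) else 0)
      = ∑ q : NQ R, (if ∃ h : x ∈ Subgroup.normalizer (R : Set A), qm R x h = q then g q else 0) := by
    intro x
    by_cases hx : x ∈ Subgroup.normalizer (R : Set A)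
    · rw [dif_pos hx, Finset.sum_eq_single (qm R x hx)]
      · rw [if_pos ⟨hx, rfl⟩]
      · intro q _ hq
        rw [if_neg]
        rintro ⟨_, h⟩
        exact hq h.symm
      · intro h; exact absurd (Finset.mem_univ _) h
    · rw [dif_neg hx]
      symm
      apply Finset.sum_eq_zero
      intro q _
      rw [if_neg]
      rintro ⟨h, _⟩
      exact hx h
  rw [Finset.sum_congr rfl (fun x _ => h1 x), Finset.sum_comm, Finset.smul_sum]
  refine Finset.sum_congr rfl (fun q _ => ?_)
  rw [← Finset.sum_filter, Finset.sum_const]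
  congr 1
  obtain ⟨n, hn, rfl⟩ := qm_surj q
  rw [← Nat.card_eq_finsetCard]
  refine Nat.card_congr ⟨fun x => ⟨n⁻¹ * x, ?_⟩, fun r => ⟨n * r, ?_⟩, fun x => ?_, fun r => ?_⟩
  · obtain ⟨h, h'⟩ := (Finset.mem_filter.1 x.2).2
    exact qm_eq_iff.1 h'.symm
  · rw [Finset.mem_filter]
    refine ⟨Finset.mem_univ _, (Subgroup.normalizer (R : Set A)).mul_mem hn
      (Subgroup.le_normalizer r.2), ?_⟩
    symm
    rw [qm_eq_iff]
    have e : n⁻¹ * (n * (r : A)) = r := by group
    rw [e]; exact r.2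
  · apply Subtype.ext
    change n * (n⁻¹ * (x : A)) = x
    group
  · apply Subtype.ext
    change n⁻¹ * (n * (r : A)) = r
    group

theorem mem_iff {N Y R : Subgroup A} (hRN : R ≤ N) (hNY : N ≤ Y) [Fintype A] [Fintype (NQ R)]
    {x y : A} (hx : x ∈ Subgroup.normalizer (R : Set A))
    (hy : y ∈ Subgroup.normalizer (R : Set A)) :
    (qm R x hx, qm R y hy) ∈ prs (sec N R) (sec Y R) ↔ (x, y) ∈ prs N Y := by
  rw [mem_prs, mem_prs]
  have e : qm R y hy * qm R x hx * (qm R y hy)⁻¹ * (qm R x hx)⁻¹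
      = qm R (y * x * y⁻¹ * x⁻¹) ((Subgroup.normalizer (R : Set A)).mul_mem
        ((Subgroup.normalizer (R : Set A)).mul_mem
          ((Subgroup.normalizer (R : Set A)).mul_mem hy hx)
          ((Subgroup.normalizer (R : Set A)).inv_mem hy))
        ((Subgroup.normalizer (R : Set A)).inv_mem hx)) := rfl
  change (qm R x hx ∈ sec Y R ∧ qm R y hy ∈ sec Y R ∧
    qm R y hy * qm R x hx * (qm R y hy)⁻¹ * (qm R x hx)⁻¹ ∈ sec N R) ↔ _
  rw [e, qm_mem_sec_iff (hRN.trans hNY), qm_mem_sec_iff (hRN.trans hNY), qm_mem_sec_iff hRN]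

end WsRAux

open Classical in
/-- the value of the pair `(x, y)` for the weights of `R` -/
noncomputable def tauR (p : ℕ) [Fact p.Prime] [Finite A] (N : Subgroup A) (f : MonoidAlgebra k A)
    (R : Subgroup A) (x y : A) : WittVector p k :=
  if h : x ∈ Subgroup.normalizer (R : Set A) ∧ y ∈ Subgroup.normalizer (R : Set A) then
    tau p (sec N R) (dzF p (sec N R) (proj R f)) (QuotientGroup.mk ⟨x, h.1⟩ : NQ R)
      (QuotientGroup.mk ⟨y, h.2⟩ : NQ R)
  else 0

open Classical in
theorem sum_prs_sec [Fintype A] {N Y R : Subgroup A} [Fintype (NQ R)] (hRN : R ≤ N) (hNY : N ≤ Y)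
    {M : Type*} [AddCommMonoid M] (φ : NQ R → NQ R → M) :
    ∑ z ∈ prs N Y, (if h : z.1 ∈ Subgroup.normalizer (R : Set A) ∧
        z.2 ∈ Subgroup.normalizer (R : Set A) then
      φ (QuotientGroup.mk ⟨z.1, h.1⟩ : NQ R) (QuotientGroup.mk ⟨z.2, h.2⟩ : NQ R) else 0)
      = (Nat.card R ^ 2) • ∑ z ∈ prs (sec N R) (sec Y R), φ z.1 z.2 := by
  let F : NQ R → NQ R → M := fun u v => if (u, v) ∈ prs (sec N R) (sec Y R) then φ u v else 0
  have h1 : ∑ z ∈ prs (sec N R) (sec Y R), φ z.1 z.2 = ∑ u : NQ R, ∑ v : NQ R, F u v := by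
    rw [← Fintype.sum_prod_type' F, ← Finset.sum_subset (Finset.subset_univ (prs (sec N R) (sec Y R)))
      (f := fun z => F z.1 z.2)]
    · exact Finset.sum_congr rfl (fun z hz => (if_pos hz).symm)
    · intro z _ hz
      exact if_neg hz
  have h4 : ∑ z ∈ prs N Y, (if h : z.1 ∈ Subgroup.normalizer (R : Set A) ∧
        z.2 ∈ Subgroup.normalizer (R : Set A) then
      φ (QuotientGroup.mk ⟨z.1, h.1⟩ : NQ R) (QuotientGroup.mk ⟨z.2, h.2⟩ : NQ R) else 0)
      = ∑ x : A, ∑ y : A, (if hx : x ∈ Subgroup.normalizer (R : Set A) then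
          (if hy : y ∈ Subgroup.normalizer (R : Set A) then F (qm R x hx) (qm R y hy) else 0)
          else 0) := by
    rw [← Fintype.sum_prod_type' (fun x y : A => (if hx : x ∈ Subgroup.normalizer (R : Set A) then
          (if hy : y ∈ Subgroup.normalizer (R : Set A) then F (qm R x hx) (qm R y hy) else 0)
          else 0))]
    rw [← Finset.sum_subset (Finset.subset_univ (prs N Y))]
    · refine Finset.sum_congr rfl (fun z hz => ?_)
      by_cases hx : z.1 ∈ Subgroup.normalizer (R : Set A)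
      · by_cases hy : z.2 ∈ Subgroup.normalizer (R : Set A)
        · rw [dif_pos ⟨hx, hy⟩, dif_pos hx, dif_pos hy]
          exact (if_pos ((WsRAux.mem_iff hRN hNY hx hy).2 hz)).symm
        · rw [dif_neg (fun h => hy h.2), dif_pos hx, dif_neg hy]
      · rw [dif_neg (fun h => hx h.1), dif_neg hx]
    · intro z _ hz
      by_cases hx : z.1 ∈ Subgroup.normalizer (R : Set A)
      · by_cases hy : z.2 ∈ Subgroup.normalizer (R : Set A)
        · rw [dif_pos hx, dif_pos hy]
          exact if_neg (fun h => hz ((WsRAux.mem_iff hRN hNY hx hy).1 h))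
        · rw [dif_pos hx, dif_neg hy]
      · rw [dif_neg hx]
  rw [h4, h1]
  have h5 : ∀ x : A, ∑ y : A, (if hx : x ∈ Subgroup.normalizer (R : Set A) then
          (if hy : y ∈ Subgroup.normalizer (R : Set A) then F (qm R x hx) (qm R y hy) else 0)
          else 0)
      = (if hx : x ∈ Subgroup.normalizer (R : Set A) then
          (fun u => Nat.card R • ∑ v : NQ R, F u v) (qm R x hx) else 0) := by
    intro x
    by_cases hx : x ∈ Subgroup.normalizer (R : Set A)
    · rw [dif_pos hx]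
      change _ = Nat.card R • ∑ v : NQ R, F (qm R x hx) v
      rw [← WsRAux.sum_cls (F (qm R x hx))]
      exact Finset.sum_congr rfl (fun y _ => dif_pos hx)
    · rw [dif_neg hx]
      exact Finset.sum_eq_zero (fun y _ => dif_neg hx)
  rw [Finset.sum_congr rfl (fun x _ => h5 x),
    WsRAux.sum_cls (fun u => Nat.card R • ∑ v : NQ R, F u v), ← Finset.smul_sum, smul_smul, sq]

theorem card_sec [Finite A] {Y R : Subgroup A} (hRY : R ≤ Y) :
    Nat.card R * Nat.card ↥(sec Y R) = Nat.card ↥(Y ⊓ Subgroup.normalizer (R : Set A)) := by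
  rw [mul_comm]
  exact Pool.Agent.Lib.P0c8ca5.card_sec hRY

theorem sum_tauR [Fact p.Prime] [CharP k p] [IsAlgClosed k] [Fintype A] {N Y R : Subgroup A}
    (hRN : R ≤ N) (hR : IsPGroup p R) (hNY : N ≤ Y) (hn : Y ≤ Subgroup.normalizer (N : Set A))
    (hp : ∀ y ∈ Y, Prm p N y)
    {f : MonoidAlgebra k A} (hf : SuppIn N f) (hfi : InvBy Y f) (hff : f * f = f) :
    ∑ z ∈ prs N Y, tauR p N f R z.1 z.2
      = ((Nat.card ↥(N ⊓ Subgroup.normalizer (R : Set A))
          * (Nat.card ↥(Y ⊓ Subgroup.normalizer (R : Set A))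
            * Nat.card {g : MonoidAlgebra k (NQ R) | IsDZ p (sec Y R) g ∧ g * proj R f = g})
            : ℕ) : WittVector p k) := by
  classical
  have : Fintype (NQ R) := Fintype.ofFinite _
  have hRY : R ≤ Y := hRN.trans hNY
  have hs : sec N R ≤ sec Y R := sec_mono hNY
  have hn' : sec Y R ≤ Subgroup.normalizer ((sec N R : Subgroup (NQ R)) : Set (NQ R)) :=
    Cy.HypAux.sec_norm hn R
  have hp' : ∀ y ∈ sec Y R, Prm p (sec N R) y := by
    intro w hw
    obtain ⟨x, hx, hx', rfl⟩ := mem_sec.1 hw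
    obtain ⟨m, hm, hm'⟩ := hp x hx
    refine ⟨m, hm, ?_⟩
    have e : (qm R x hx') ^ m = qm R (x ^ m) ((Subgroup.normalizer (R : Set A)).pow_mem hx' m) := rfl
    rw [e]
    exact qm_mem_sec _ hm'
  have hcs : SuppIn (sec N R) (proj R f) := proj_suppIn hf R
  have hci : InvBy (sec Y R) (proj R f) := proj_invBy' hfi
  have hcc : proj R f * proj R f = proj R f := by
    rw [← proj_mul hR (hfi.mono hRY) (hfi.mono hRY), hff]
  have h1 : ∑ z ∈ prs N Y, tauR p N f R z.1 z.2 = _ :=
    sum_prs_sec (R := R) hRN hNY (fun u v => tau p (sec N R) (dzF p (sec N R) (proj R f)) u v)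
  rw [h1, lf hs hn' hp' (dzF_supp p (sec N R) (proj R f)) (dzF_inv hn' hci)
    (dzF_idem p (sec N R) (proj R f)), ← card_dz_N hs hn' hp' hcs hci hcc,
    ← card_sec (R := R) hRN, ← card_sec (R := R) hRY, nsmul_eq_mul]
  push_cast
  ring

end Pool.Agent.Lib.P0c8ca5.Zz
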