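import Mathlib
import Pool.Agent.Lib.P0c8ca5Z.WsR
import Pool.Agent.Lib.P0c8ca5Z.CombP
import Pool.Agent.Lib.P0c8ca5C.Defs

/-!
# Module Pr: the weight equality for nonabelian p'-quotients

PROOF of `wit_inj`.  `𝕎 k` is an integral domain (`WittVector` instance), `(p : 𝕎 k) ≠ 0` (`WittVector.p_nonzero`), and the image of
`(n : 𝕎 k)` in `k` (`WittVector.constantCoeff`) is `(n : k)`.  If `(a : 𝕎 k) = b` with `a ≠ b`, the difference `n ≠ 0`, `(n : 𝕎 k) = 0`; write
`n = p ^ s * m`, `p ∤ m`: then `(m : 𝕎 k) = 0`, so `(m : k) = 0`, a contradiction.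
PROOF of `sum_tauW`.  All p-subgroups `R` of `Y` are in `N` (for `x ∈ R` both `x ^ p ^ n = 1` and `x ^ m ∈ N`, `p ∤ m`).  Exchange the sums;
`sum_tauR`, and `(N ⊓ N_A(R)).relIndex N * |N ⊓ N_A(R)| = |N|` (`Subgroup.relIndex_mul_card`-like).  `Fr.Ws` is defined in
P0c8ca5P.Fam.
PROOF of `weq_iff_pairs`.  `lf` and `sum_tauW`: the sum of `tau - tauW` is `|N| * (|Y| * card (IrX Y f)) - |N| * Fr.Ws p Y f` in `𝕎 k`;
`wit_inj`, `|N| ≠ 0`.
PROOF of `weq_pairs`.  `comb` for `δ = tau - tauW`, `weq_iff_pairs` for `Y` (`hp`, `hfi`, `hn` restrict to `Y ≤ K`).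
-/

namespace Pool.Agent.Lib.P0c8ca5.Zz

open MonoidAlgebra Pool.Agent.Lib.P0c8ca5.Bq Pool.Agent.Lib.P0c8ca5.Cy WittVector

variable {p : ℕ} {k : Type*} [Field k] {A : Type*} [Group A]

theorem wit_inj (p : ℕ) [Fact p.Prime] [CharP k p] {a b : ℕ}
    (h : (a : WittVector p k) = (b : WittVector p k)) : a = b := by
  have hp : p.Prime := Fact.out
  have hp0 : (p : WittVector p k) ≠ 0 := WittVector.p_nonzero p k
  have key : ∀ n : ℕ, n ≠ 0 → (n : WittVector p k) ≠ 0 := by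
    intro n hn h0
    obtain ⟨e, m, hm, rfl⟩ := Nat.exists_eq_pow_mul_and_not_dvd hn p hp.ne_one
    rw [Nat.cast_mul, Nat.cast_pow] at h0
    rcases mul_eq_zero.1 h0 with h1 | h1
    · exact pow_ne_zero e hp0 h1
    · have h2 : ((m : ℕ) : k) = 0 := by
        have h3 := congrArg (WittVector.constantCoeff (p := p) (R := k)) h1
        rwa [map_natCast, map_zero] at h3
      exact hm ((CharP.cast_eq_zero_iff k p m).1 h2)
  by_contra hab
  rcases Nat.lt_or_gt_of_ne hab with hlt | hlt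
  · apply key (b - a) (by omega)
    rw [Nat.cast_sub hlt.le, h, sub_self]
  · apply key (a - b) (by omega)
    rw [Nat.cast_sub hlt.le, h, sub_self]

open Classical in
/-- the value of the pair `(x, y)` for the weights -/
noncomputable def tauW (p : ℕ) [Fact p.Prime] [Fintype A] (N : Subgroup A) (f : MonoidAlgebra k A)
    (x y : A) : WittVector p k :=
  ∑ R ∈ Finset.univ.filter (fun R : Subgroup A => R ≤ N ∧ IsPGroup p R),
    ((N ⊓ Subgroup.normalizer (R : Set A)).relIndex N) • tauR p N f R x y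

theorem sum_tauW [Fact p.Prime] [CharP k p] [IsAlgClosed k] [Fintype A] {N Y : Subgroup A}
    (hNY : N ≤ Y) (hn : Y ≤ Subgroup.normalizer (N : Set A)) (hp : ∀ y ∈ Y, Prm p N y)
    {f : MonoidAlgebra k A} (hf : SuppIn N f) (hfi : InvBy Y f) (hff : f * f = f) :
    ∑ z ∈ prs N Y, tauW p N f z.1 z.2
      = ((Nat.card N * Fr.Ws p Y f : ℕ) : WittVector p k) := by
  classical
  have hfilter : Finset.univ.filter (fun R : Subgroup A => R ≤ N ∧ IsPGroup p R)
      = Finset.univ.filter (fun R : Subgroup A => R ≤ Y ∧ IsPGroup p R) := by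
    ext R
    rw [Finset.mem_filter, Finset.mem_filter]
    constructor
    · rintro ⟨h1, h2, h3⟩
      exact ⟨h1, h2.trans hNY, h3⟩
    · rintro ⟨h1, h2, h3⟩
      exact ⟨h1, DzNAux.le_of_prm hp h2 h3, h3⟩
  unfold tauW
  rw [Finset.sum_comm]
  have h1 : ∀ R ∈ Finset.univ.filter (fun R : Subgroup A => R ≤ N ∧ IsPGroup p R),
      ∑ z ∈ prs N Y, ((N ⊓ Subgroup.normalizer (R : Set A)).relIndex N) • tauR p N f R z.1 z.2
      = ((Nat.card N * (Nat.card ↥(Y ⊓ Subgroup.normalizer (R : Set A))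
            * Nat.card {g : MonoidAlgebra k (NQ R) | IsDZ p (sec Y R) g ∧ g * proj R f = g})
            : ℕ) : WittVector p k) := by
    intro R hR
    obtain ⟨-, hRN, hRp⟩ := Finset.mem_filter.1 hR
    rw [← Finset.smul_sum, sum_tauR hRN hRp hNY hn hp hf hfi hff, nsmul_eq_mul, ← Nat.cast_mul,
      ← mul_assoc]
    congr 2
    have h2 := Subgroup.relIndex_mul_relIndex ⊥ (N ⊓ Subgroup.normalizer (R : Set A)) N bot_le
      inf_le_left
    rw [Subgroup.relIndex_bot_left, Subgroup.relIndex_bot_left] at h2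
    rw [mul_comm, h2]
  rw [Finset.sum_congr rfl h1, ← Nat.cast_sum, ← Finset.mul_sum, hfilter]
  rfl

theorem weq_iff_pairs [Fact p.Prime] [CharP k p] [IsAlgClosed k] [Fintype A] {N Y : Subgroup A}
    (hNY : N ≤ Y) (hn : Y ≤ Subgroup.normalizer (N : Set A)) (hp : ∀ y ∈ Y, Prm p N y)
    {f : MonoidAlgebra k A} (hf : SuppIn N f) (hfi : InvBy Y f) (hff : f * f = f) :
    WEq p Y f ↔ ∑ z ∈ prs N Y, (tau p N f z.1 z.2 - tauW p N f z.1 z.2) = 0 := by
  rw [Finset.sum_sub_distrib, lf hNY hn hp hf hfi hff, sum_tauW hNY hn hp hf hfi hff, sub_eq_zero,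
    mul_assoc]
  have hN : 0 < Nat.card N := Nat.card_pos
  constructor
  · intro h
    have h' : Nat.card Y * Nat.card (IrX Y f) = Fr.Ws p Y f := h
    rw [h']
  · intro h
    have h1 := wit_inj p h
    exact Nat.eq_of_mul_eq_mul_left hN h1

/-- the weight equality for `K` follows from the one for the subgroups `Y` with `N ≤ Y < K`, if `K / N` is a nonabelian
p'-group -/
theorem weq_pairs [Fact p.Prime] [CharP k p] [IsAlgClosed k] [Fintype A] {N K : Subgroup A}
    (hNK : N ≤ K) (hn : K ≤ Subgroup.normalizer (N : Set A)) (hp : ∀ y ∈ K, Prm p N y)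
    (hna : ¬ ∀ x ∈ K, ∀ y ∈ K, y * x * y⁻¹ * x⁻¹ ∈ N)
    {f : MonoidAlgebra k A} (hf : SuppIn N f) (hfi : InvBy K f) (hff : f * f = f)
    (h : ∀ Y : Subgroup A, N ≤ Y → Y < K → WEq p Y f) : WEq p K f := by
  rw [weq_iff_pairs hNK hn hp hf hfi hff]
  refine comb (fun x y => tau p N f x y - tauW p N f x y) hNK hn hna ?_
  intro Y hNY hYK
  exact (weq_iff_pairs hNY (hYK.le.trans hn) (fun y hy => hp y (hYK.le hy)) hf
    (hfi.mono hYK.le) hff).1 (h Y hNY hYK)

end Pool.Agent.Lib.P0c8ca5.Zz
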