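import Mathlib
import Pool.Agent.Lib.P0c8ca5Z.Pr

/-!
# Module Pr2: the weight equality if no commuting pair generates the quotient

Variant of `comb` and `weq_pairs`: the hypothesis that `K / N` is nonabelian is replaced by the weaker one that no
pair of elements of `K` which commute modulo `N` generates `K` modulo `N`.
-/

namespace Pool.Agent.Lib.P0c8ca5.Zz

open MonoidAlgebra Pool.Agent.Lib.P0c8ca5.Bq Pool.Agent.Lib.P0c8ca5.Cy WittVector CombAux

variable {A : Type*} [Group A]

theorem comb2 [Fintype A] {M : Type*} [AddCommGroup M] {N K : Subgroup A} (δ : A → A → M)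
    (hNK : N ≤ K)
    (hno : ∀ x ∈ K, ∀ y ∈ K, y * x * y⁻¹ * x⁻¹ ∈ N → N ⊔ Subgroup.closure {x, y} ≠ K)
    (h : ∀ Y : Subgroup A, N ≤ Y → Y < K → ∑ z ∈ prs N Y, δ z.1 z.2 = 0) :
    ∑ z ∈ prs N K, δ z.1 z.2 = 0 := by
  classical
  have : Fintype (Subgroup A) := Fintype.ofFinite _
  have key : ∀ Y : Subgroup A, N ≤ Y → Y < K →
      ∑ z ∈ (prs N Y).filter (fun z => cl N z = Y), δ z.1 z.2 = 0 := by
    intro Y
    induction Y using WellFoundedLT.induction with
    | ind Y ih =>
      intro hNY hYK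
      have e := sum_eq δ hNY
      rw [h Y hNY hYK, Finset.sum_eq_single Y] at e
      · exact e.symm
      · intro Y' hY' hne
        rw [Finset.mem_filter] at hY'
        exact ih Y' (lt_of_le_of_ne hY'.2.2 hne) hY'.2.1 (lt_of_le_of_lt hY'.2.2 hYK)
      · intro h'
        exact absurd (Finset.mem_filter.2 ⟨Finset.mem_univ _, hNY, le_refl _⟩) h'
  rw [sum_eq δ hNK]
  refine Finset.sum_eq_zero fun Y' hY' => ?_
  rw [Finset.mem_filter] at hY'
  rcases eq_or_lt_of_le hY'.2.2 with he | hlt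
  · subst he
    have he : (prs N Y').filter (fun z => cl N z = Y') = ∅ := by
      rw [Finset.filter_eq_empty_iff]
      intro z hz hc
      rw [mem_prs] at hz
      exact hno _ hz.1 _ hz.2.1 hz.2.2 hc
    rw [he, Finset.sum_empty]
  · exact key Y' hY'.2.1 hlt

variable {p : ℕ} {k : Type*} [Field k]

/-- the weight equality for `K` follows from the one for the subgroups `Y` with `N ≤ Y < K`, if `K / N` is a p'-group
which is not generated by two commuting elements -/
theorem weq_pairs2 [Fact p.Prime] [CharP k p] [IsAlgClosed k] [Fintype A] {N K : Subgroup A}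
    (hNK : N ≤ K) (hn : K ≤ Subgroup.normalizer (N : Set A)) (hp : ∀ y ∈ K, Prm p N y)
    (hno : ∀ x ∈ K, ∀ y ∈ K, y * x * y⁻¹ * x⁻¹ ∈ N → N ⊔ Subgroup.closure {x, y} ≠ K)
    {f : MonoidAlgebra k A} (hf : SuppIn N f) (hfi : InvBy K f) (hff : f * f = f)
    (h : ∀ Y : Subgroup A, N ≤ Y → Y < K → WEq p Y f) : WEq p K f := by
  rw [weq_iff_pairs hNK hn hp hf hfi hff]
  refine comb2 (fun x y => tau p N f x y - tauW p N f x y) hNK hno ?_
  intro Y hNY hYK
  exact (weq_iff_pairs hNY (hYK.le.trans hn) (fun y hy => hp y (hYK.le hy)) hf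
    (hfi.mono hYK.le) hff).1 (h Y hNY hYK)

end Pool.Agent.Lib.P0c8ca5.Zz
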