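import Mathlib

/-!
# Module GrpC: abelian groups of automorphisms without invariant subgroups are cyclic

PROOF of `cyclic_of_irred`.  Let `E = AddMonoid.End (Additive V)` (a ring) and let `S` be the subring generated by the images of the `φ h`
(`Subring.closure`); it is commutative (`Subring.closureCommRingOfComm`).  For `r ∈ S`, `r ≠ 0`, the kernel of `r` is a subgroup of `V`
that is invariant under all `φ h` (`r` commutes with them) and is not `V`, so it is trivial: `r` is injective.  Hence `S` is an
integral domain (if `r s = 0`, `r ≠ 0`, then all `s v` are in the kernel of `r`, so `s = 0`; `1 ≠ 0` as `V` is nontrivial).  The map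
`φ.range → S` is an injective monoid homomorphism of a finite group into a domain: `isCyclic_of_subgroup_isDomain`.
-/

namespace Pool.Agent.Lib.P0c8ca5.Zz

namespace GrpCAux

/-- The endomorphism of the additive group attached to an automorphism. -/
def psi {V : Type*} [CommGroup V] (a : MulAut V) : AddMonoid.End (Additive V) :=
  MonoidHom.toAdditive a.toMonoidHom

theorem psi_apply {V : Type*} [CommGroup V] (a : MulAut V) (v : Additive V) :
    psi a v = Additive.ofMul (a v.toMul) := rfl

theorem psi_one {V : Type*} [CommGroup V] : psi (1 : MulAut V) = 1 := rfl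

theorem psi_mul {V : Type*} [CommGroup V] (a b : MulAut V) : psi (a * b) = psi a * psi b := rfl

theorem psi_inj {V : Type*} [CommGroup V] : Function.Injective (psi (V := V)) := by
  intro a b h
  apply MulEquiv.ext
  intro x
  have := DFunLike.congr_fun h (Additive.ofMul x)
  exact this

end GrpCAux

open GrpCAux in
theorem cyclic_of_irred {V : Type*} [CommGroup V] [Nontrivial V] {H : Type*} [Group H] [Finite H]
    (φ : H →* MulAut V) (hcomm : ∀ a b, φ a * φ b = φ b * φ a)
    (hirr : ∀ W : Subgroup V, (∀ h, ∀ w ∈ W, φ h w ∈ W) → W = ⊥ ∨ W = ⊤) :
    IsCyclic ↥φ.range := by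
  classical
  set s : Set (AddMonoid.End (Additive V)) := Set.range (fun h => psi (φ h)) with hs
  have hsc : ∀ x ∈ s, ∀ y ∈ s, x * y = y * x := by
    rintro x ⟨a, rfl⟩ y ⟨b, rfl⟩
    show psi (φ a) * psi (φ b) = psi (φ b) * psi (φ a)
    rw [← psi_mul, ← psi_mul, hcomm]
  have hcl : IsMulCommutative (Subring.closure s) := Subring.isMulCommutative_closure hsc
  let cr : CommRing (Subring.closure s) := { (inferInstance : Ring (Subring.closure s)) with
    mul_comm := fun a b => hcl.is_comm.comm a b }
  have hcc : ∀ r s' : Subring.closure s, r * s' = s' * r := fun r s' => mul_comm r s'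
  -- key: nonzero elements have trivial kernel
  have key : ∀ r : Subring.closure s, r ≠ 0 → ∀ v : Additive V,
      (r : AddMonoid.End (Additive V)) v = 0 → v = 0 := by
    intro r hr v hv
    let W : Subgroup V :=
      { carrier := {w | (r : AddMonoid.End (Additive V)) (Additive.ofMul w) = 0}
        one_mem' := by
          show (r : AddMonoid.End (Additive V)) (Additive.ofMul 1) = 0
          rw [ofMul_one, map_zero]
        mul_mem' := by
          intro a b ha hb
          show (r : AddMonoid.End (Additive V)) (Additive.ofMul (a * b)) = 0
          rw [ofMul_mul, map_add]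
          have ha' : (r : AddMonoid.End (Additive V)) (Additive.ofMul a) = 0 := ha
          have hb' : (r : AddMonoid.End (Additive V)) (Additive.ofMul b) = 0 := hb
          rw [ha', hb', add_zero]
        inv_mem' := by
          intro a ha
          show (r : AddMonoid.End (Additive V)) (Additive.ofMul a⁻¹) = 0
          have ha' : (r : AddMonoid.End (Additive V)) (Additive.ofMul a) = 0 := ha
          rw [ofMul_inv, map_neg, ha', neg_zero] }
    have hW : W = ⊥ ∨ W = ⊤ := by
      apply hirr
      intro h w hw
      show (r : AddMonoid.End (Additive V)) (Additive.ofMul (φ h w)) = 0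
      have hw' : (r : AddMonoid.End (Additive V)) (Additive.ofMul w) = 0 := hw
      have hmem : psi (φ h) ∈ Subring.closure s := Subring.subset_closure ⟨h, rfl⟩
      have h1 := hcc r ⟨psi (φ h), hmem⟩
      have h2 : (r : AddMonoid.End (Additive V)) * psi (φ h) =
          psi (φ h) * (r : AddMonoid.End (Additive V)) := congrArg Subtype.val h1
      have h3 := DFunLike.congr_fun h2 (Additive.ofMul w)
      have h4 : (r : AddMonoid.End (Additive V)) (Additive.ofMul (φ h w)) =
          psi (φ h) ((r : AddMonoid.End (Additive V)) (Additive.ofMul w)) := h3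
      rw [h4, hw', map_zero]
    rcases hW with hW | hW
    · have hvW : v.toMul ∈ W := hv
      rw [hW, Subgroup.mem_bot] at hvW
      exact hvW
    · exfalso
      apply hr
      apply Subtype.ext
      apply AddMonoidHom.ext
      intro x
      have hx : x.toMul ∈ W := by rw [hW]; exact Subgroup.mem_top _
      exact hx
  have hnt : Nontrivial (Subring.closure s) := by
    refine ⟨⟨0, 1, ?_⟩⟩
    intro h01
    obtain ⟨x, hx⟩ := exists_ne (1 : V)
    have h1 : (0 : AddMonoid.End (Additive V)) = 1 := congrArg Subtype.val h01
    have h2 := DFunLike.congr_fun h1 (Additive.ofMul x)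
    have h3 : (0 : Additive V) = Additive.ofMul x := h2
    exact hx (Additive.ofMul.injective (h3.symm))
  have hnz : NoZeroDivisors (Subring.closure s) := by
    refine ⟨?_⟩
    intro a b hab
    by_cases ha : a = 0
    · exact Or.inl ha
    · right
      apply Subtype.ext
      apply AddMonoidHom.ext
      intro x
      have h1 : (a : AddMonoid.End (Additive V)) * (b : AddMonoid.End (Additive V)) = 0 :=
        congrArg Subtype.val hab
      have h2 := DFunLike.congr_fun h1 x
      exact key a ha _ h2
  have hdom : IsDomain (Subring.closure s) := NoZeroDivisors.to_isDomain _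
  have hmem : ∀ g : ↥φ.range, psi (g : MulAut V) ∈ Subring.closure s := by
    rintro ⟨g, h, rfl⟩
    exact Subring.subset_closure ⟨h, rfl⟩
  let f : ↥φ.range →* Subring.closure s :=
    { toFun := fun g => ⟨psi (g : MulAut V), hmem g⟩
      map_one' := Subtype.ext rfl
      map_mul' := fun a b => Subtype.ext rfl }
  have hf : Function.Injective f := by
    intro a b hab
    have h1 : psi (a : MulAut V) = psi (b : MulAut V) := congrArg Subtype.val hab
    exact Subtype.ext (psi_inj h1)
  have hfin : Finite ↥φ.range := Finite.of_surjective φ.rangeRestrict φ.rangeRestrict_surjective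
  exact isCyclic_of_injective_ringHom f hf

end Pool.Agent.Lib.P0c8ca5.Zz
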