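import Mathlib
import Pool.Agent.Lib.P0c8ca5Z.GrpV
import Pool.Agent.Lib.P0c8ca5S.HH
import Pool.Agent.Lib.P0c8ca5Q.Defs

/-!
# Module GrpS: p-solvable quotients

PROOF of `top_factor`.  Let `s 0 = ⊥, …, s n = ⊤` be the series of `PSolv p G`.  Let `i` be the largest index `< n` such that `N` is not
contained in `s i` (there is one, as `N ≠ ⊥ = s 0`); then `N ≤ s (i + 1)` and `C = N ⊓ s i`.
PROOF of `four_cases`.  Assume that the first two alternatives fail.  Choose `N` minimal (for the cardinality) among the normal subgroups of `A`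
with `M ≤ N` and `∀ x, Prm p N x` (`⊤` is one).  (1) If `T` is normal in `A`, `M ≤ T ≤ N`, `∀ x ∈ N, ∃ m, ¬ p ∣ m ∧ x ^ m ∈ T`, then `T = N`
(by minimality, `(x ^ m) ^ m' = x ^ (m m')`).  (2) `N ≠ M` (else the first alternative).  Apply `top_factor` to `A ⧸ M` and the image of `N`
(`≠ ⊥`) and take the preimage: a normal subgroup `C`, `M ≤ C < N`, with `N / C` a p'-group, impossible by (1), or a p-group.
(3) `N ≠ ⊤`, else `C` is as in the second alternative.  (4) If not all `y x y⁻¹ x⁻¹ ∈ N`, the third alternative.  (5) Otherwise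
`exists_hyp` for `C < N`: `p ∤ N.index` by Cauchy (an element of `A ⧸ N` of order `p` has a power of exponent prime to `p` equal to `1`);
`hO`: a normal `T ≥ C ≥ M` with p-group quotient is `⊤` as the second alternative fails.
-/

namespace Pool.Agent.Lib.P0c8ca5.Zz

open Pool.Agent.Lib.P0c8ca5.Cy Pool.Agent.Lib.P0c8ca5.Bq Pool.Agent.Lib.P0c8ca5.Ps

theorem top_factor {p : ℕ} {G : Type*} [Group G] (hG : PSolv p G) {N : Subgroup G}
    (hn : N.Normal) (hN : N ≠ ⊥) :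
    ∃ C : Subgroup G, C.Normal ∧ C < N ∧ ((∀ x ∈ N, ∃ n : ℕ, x ^ p ^ n ∈ C) ∨
      ∀ x ∈ N, ∃ m : ℕ, ¬ p ∣ m ∧ x ^ m ∈ C) := by
  classical
  obtain ⟨n, s, h0, hsn, hsN, hst⟩ := hG
  have hex : ∃ j, N ≤ s j := ⟨n, by rw [hsn]; exact le_top⟩
  have hj := Nat.find_spec hex
  have hmin : ∀ i < Nat.find hex, ¬ N ≤ s i := fun i hi => Nat.find_min hex hi
  have hle : Nat.find hex ≤ n := Nat.find_min' hex (by rw [hsn]; exact le_top)
  have hpos : Nat.find hex ≠ 0 := by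
    intro h
    rw [h, h0, le_bot_iff] at hj
    exact hN hj
  obtain ⟨i, hi⟩ := Nat.exists_eq_succ_of_ne_zero hpos
  rw [hi] at hj hmin hle
  have hnot : ¬ N ≤ s i := hmin i (Nat.lt_succ_self i)
  have hin : i < n := hle
  haveI := hn
  haveI := hsN i
  refine ⟨N ⊓ s i, inferInstance, ?_, ?_⟩
  · refine lt_of_le_of_ne inf_le_left ?_
    intro h
    exact hnot (inf_eq_left.mp h)
  · rcases (hst i hin).2 with h | h
    · left
      intro x hx
      obtain ⟨m, hm⟩ := h x (hj hx)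
      exact ⟨m, Subgroup.mem_inf.mpr ⟨N.pow_mem hx _, hm⟩⟩
    · right
      intro x hx
      obtain ⟨m, hm, hm'⟩ := h x (hj hx)
      exact ⟨m, hm, Subgroup.mem_inf.mpr ⟨N.pow_mem hx _, hm'⟩⟩

theorem four_cases {p : ℕ} [Fact p.Prime] {A : Type*} [Group A] [Finite A] {M : Subgroup A}
    [M.Normal] (hM : PSolv p (A ⧸ M)) :
    (∀ x : A, Prm p M x) ∨
    (∃ N : Subgroup A, N.Normal ∧ M ≤ N ∧ N ≠ ⊤ ∧ ∀ x : A, ∃ n : ℕ, x ^ p ^ n ∈ N) ∨
    (∃ N : Subgroup A, N.Normal ∧ M ≤ N ∧ (∀ x : A, Prm p N x) ∧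
      ¬ ∀ x y : A, y * x * y⁻¹ * x⁻¹ ∈ N) ∨
    (∃ B₀ B₁ : Subgroup A, B₀.Normal ∧ B₁.Normal ∧ M ≤ B₀ ∧ HypExt p B₀ B₁ ⊤ ∧
      ∀ g : A, B₀ ⊔ Subgroup.zpowers g ≠ ⊤) := by
  classical
  have hp : p.Prime := Fact.out
  by_cases h1 : ∀ x : A, Prm p M x
  · exact Or.inl h1
  by_cases h2 : ∃ N : Subgroup A, N.Normal ∧ M ≤ N ∧ N ≠ ⊤ ∧ ∀ x : A, ∃ n : ℕ, x ^ p ^ n ∈ N
  · exact Or.inr (Or.inl h2)
  right
  right
  let S : Set (Subgroup A) := {N | N.Normal ∧ M ≤ N ∧ ∀ x : A, Prm p N x}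
  have hSne : S.Nonempty := by
    refine ⟨⊤, inferInstance, le_top, fun x => ⟨1, ?_, Subgroup.mem_top _⟩⟩
    exact fun h => hp.one_lt.ne' (Nat.dvd_one.mp h)
  obtain ⟨N, hNmin⟩ := (Set.toFinite S).exists_minimal hSne
  obtain ⟨hNn, hMN, hNp⟩ := hNmin.prop
  have key : ∀ T : Subgroup A, T.Normal → M ≤ T → T ≤ N → (∀ x ∈ N, ∃ m : ℕ, ¬ p ∣ m ∧ x ^ m ∈ T) →
      T = N := by
    intro T hT hMT hTN h
    refine le_antisymm hTN (hNmin.le_of_le ⟨hT, hMT, ?_⟩ hTN)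
    intro x
    obtain ⟨m, hm, hmx⟩ := hNp x
    obtain ⟨m', hm', hmx'⟩ := h _ hmx
    refine ⟨m * m', ?_, ?_⟩
    · intro hd
      rcases hp.dvd_mul.mp hd with h | h
      · exact hm h
      · exact hm' h
    · rw [pow_mul]
      exact hmx'
  have hNM : ¬ N ≤ M := by
    intro h
    apply h1
    intro x
    obtain ⟨m, hm, hmx⟩ := hNp x
    exact ⟨m, hm, h hmx⟩
  haveI := hNn
  have hN'n : (N.map (QuotientGroup.mk' M)).Normal := hNn.map _ (QuotientGroup.mk'_surjective M)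
  have hN'ne : N.map (QuotientGroup.mk' M) ≠ ⊥ := by
    intro h
    rw [Subgroup.map_eq_bot_iff, QuotientGroup.ker_mk'] at h
    exact hNM h
  obtain ⟨C', hC'n, hC'lt, hC'⟩ := top_factor hM hN'n hN'ne
  have hcomapN : (N.map (QuotientGroup.mk' M)).comap (QuotientGroup.mk' M) = N := by
    rw [Subgroup.comap_map_eq, QuotientGroup.ker_mk']
    exact sup_eq_left.mpr hMN
  have hCn : (C'.comap (QuotientGroup.mk' M)).Normal := hC'n.comap _
  have hMC : M ≤ C'.comap (QuotientGroup.mk' M) := by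
    intro x hx
    rw [Subgroup.mem_comap]
    have : QuotientGroup.mk' M x = 1 := by
      rw [QuotientGroup.mk'_apply, QuotientGroup.eq_one_iff]
      exact hx
    rw [this]
    exact C'.one_mem
  have hCN : C'.comap (QuotientGroup.mk' M) ≤ N := by
    calc C'.comap (QuotientGroup.mk' M) ≤ (N.map (QuotientGroup.mk' M)).comap _ :=
          Subgroup.comap_mono hC'lt.le
      _ = N := hcomapN
  have hCne : C'.comap (QuotientGroup.mk' M) ≠ N := by
    intro h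
    apply hC'lt.ne
    rw [← h, Subgroup.map_comap_eq_self_of_surjective (QuotientGroup.mk'_surjective M)]
  have hClt : C'.comap (QuotientGroup.mk' M) < N := lt_of_le_of_ne hCN hCne
  have hpN : ∀ x ∈ N, ∃ n : ℕ, x ^ p ^ n ∈ C'.comap (QuotientGroup.mk' M) := by
    rcases hC' with h | h
    · intro x hx
      obtain ⟨n, hn⟩ := h _ (Subgroup.mem_map_of_mem _ hx)
      refine ⟨n, ?_⟩
      rw [Subgroup.mem_comap, map_pow]
      exact hn
    · exfalso
      apply hCne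
      refine key _ hCn hMC hCN ?_
      intro x hx
      obtain ⟨m, hm, hmx⟩ := h _ (Subgroup.mem_map_of_mem _ hx)
      refine ⟨m, hm, ?_⟩
      rw [Subgroup.mem_comap, map_pow]
      exact hmx
  by_cases hcomm : ∀ x y : A, y * x * y⁻¹ * x⁻¹ ∈ N
  · right
    have hidx : ¬ p ∣ N.index := by
      intro h
      rw [Subgroup.index] at h
      obtain ⟨x, hx⟩ := exists_prime_orderOf_dvd_card' p h
      obtain ⟨g, rfl⟩ := QuotientGroup.mk_surjective x
      obtain ⟨m, hm, hg⟩ := hNp g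
      apply hm
      rw [← hx]
      apply orderOf_dvd_of_pow_eq_one
      rw [← QuotientGroup.mk_pow, QuotientGroup.eq_one_iff]
      exact hg
    have hO : ∀ T : Subgroup A, T.Normal → C'.comap (QuotientGroup.mk' M) ≤ T →
        (∀ x : A, ∃ n : ℕ, x ^ p ^ n ∈ T) → T = ⊤ := by
      intro T hT hCT hTp
      by_contra hne
      exact h2 ⟨T, hT, hMC.trans hCT, hne, hTp⟩
    haveI := hCn
    obtain ⟨B₀, B₁, hB₀, hB₁, hCB, hyp, hg⟩ := exists_hyp hClt hpN hidx hcomm hO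
    exact ⟨B₀, B₁, hB₀, hB₁, hMC.trans hCB, hyp, hg⟩
  · left
    exact ⟨N, hNn, hMN, hNp, hcomm⟩

end Pool.Agent.Lib.P0c8ca5.Zz
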